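import Pool.Agent.H93Cone.Defs

/-!
Definitions for the statement: rational polyhedral cones, translates, fundamental domains.
-/

set_option autoImplicit false

namespace Pool.Agent.H55.Cone

open Pool.Agent.H93Cone

variable {n : ℕ}

/-- The convex cone spanned by finitely many rational vectors. -/
def ratCone (S : Finset (Fin n → ℚ)) : Set (Fin n → ℝ) :=
  (PointedCone.hull ℝ (ratVec '' (S : Set (Fin n → ℚ))) : Set (Fin n → ℝ))

/-- The union of the translates of `P` under the group `G`. -/
def translates (G : Subgroup (GL (Fin n) ℤ)) (P : Set (Fin n → ℝ)) : Set (Fin n → ℝ) :=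
  ⋃ g ∈ G, act g.val '' P

/-- The set `C` has a rational polyhedral fundamental domain for the action of `G`. -/
def HasDomain (G : Subgroup (GL (Fin n) ℤ)) (C : Set (Fin n → ℝ)) : Prop :=
  ∃ S : Finset (Fin n → ℚ), ratCone S ⊆ C ∧ C = translates G (ratCone S) ∧
    ∀ g ∈ G, g ≠ 1 → interior (ratCone S) ∩ interior (act g.val '' ratCone S) = ∅

/-- The convex hull of the rational points of `N` (a convex cone). -/
def ratHull (N : PointedCone ℝ (Fin n → ℝ)) : Set (Fin n → ℝ) :=
  (PointedCone.hull ℝ {x | x ∈ N ∧ ∃ v : Fin n → ℚ, x = ratVec v} : Set (Fin n → ℝ))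

end Pool.Agent.H55.Cone
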