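import Pool.Agent.H55.Cone.Main
import Pool.Agent.H55.Cone.Defs

set_option autoImplicit false

namespace Pool.Agent.H55.Cone

open Finset Filter Topology Pool.Agent.H93Cone

variable {n : ℕ}

/-- A neighbourhood of a point of an open set is covered by a cone with rational generators in
the open set. -/
lemma exists_ratCone_nhds {U : Set (Fin n → ℝ)} (hU : IsOpen U) {x : Fin n → ℝ} (hx : x ∈ U) :
    ∃ S : Finset (Fin n → ℚ), (∀ v ∈ S, ratVec v ∈ U) ∧ ratCone S ∈ 𝓝 x := by
  classical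
  obtain ⟨ε, hε, hball⟩ := Metric.isOpen_iff.1 hU x hx
  rcases Nat.eq_zero_or_pos n with hn | hn
  · subst hn
    refine ⟨∅, by simp, ?_⟩
    have : ratCone (∅ : Finset (Fin 0 → ℚ)) = Set.univ := by
      apply Set.eq_univ_of_forall
      intro y
      have : y = 0 := Subsingleton.elim _ _
      rw [this]
      exact Submodule.zero_mem _
    rw [this]
    exact Filter.univ_mem
  have hn0 : (0 : ℝ) < n := by exact_mod_cast hn
  obtain ⟨m, hm1, hm2⟩ := exists_rat_btwn (show (0 : ℝ) < ε / 2 by linarith)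
  set δ : ℝ := (m : ℝ) / (2 * n) with hδ
  have hδ0 : 0 < δ := by positivity
  have hδm : δ ≤ m := by
    rw [hδ]
    have h1 : (1 : ℝ) ≤ 2 * n := by
      have : (1 : ℝ) ≤ n := by exact_mod_cast hn
      linarith
    exact div_le_self hm1.le h1
  have hr : ∀ i, ∃ r : ℚ, |x i - (r : ℝ)| < δ := by
    intro i
    obtain ⟨r, hr1, hr2⟩ := exists_rat_btwn (show x i - δ < x i + δ by linarith)
    exact ⟨r, by rw [abs_lt]; constructor <;> linarith⟩
  choose r hr using hr
  have hrx : ‖x - ratVec r‖ < δ := by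
    rw [pi_norm_lt_iff hδ0]
    intro i
    exact hr i
  set S : Finset (Fin n → ℚ) := (Finset.univ.image (fun i : Fin n => r + Pi.single i m)) ∪
    (Finset.univ.image (fun i : Fin n => r - Pi.single i m)) with hS
  have hsingle : ∀ i : Fin n, ratVec (Pi.single i m : Fin n → ℚ) =
      (Pi.single i (m : ℝ) : Fin n → ℝ) := by
    intro i
    funext j
    by_cases hj : j = i
    · subst hj; simp [ratVec]
    · simp [ratVec, hj]
  have hnorm : ∀ i : Fin n, ‖(Pi.single i (m : ℝ) : Fin n → ℝ)‖ = m := by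
    intro i
    rw [Pi.norm_single, Real.norm_of_nonneg hm1.le]
  have hP : ∀ i : Fin n, ratVec r + Pi.single i (m : ℝ) ∈ ratCone S := by
    intro i
    refine Submodule.subset_span ⟨r + Pi.single i m, ?_, ?_⟩
    · rw [hS, Finset.coe_union]
      exact Or.inl (Finset.mem_coe.2 (Finset.mem_image_of_mem _ (Finset.mem_univ i)))
    · rw [ratVec_add, hsingle]
  have hM : ∀ i : Fin n, ratVec r - Pi.single i (m : ℝ) ∈ ratCone S := by
    intro i
    refine Submodule.subset_span ⟨r - Pi.single i m, ?_, ?_⟩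
    · rw [hS, Finset.coe_union]
      exact Or.inr (Finset.mem_coe.2 (Finset.mem_image_of_mem _ (Finset.mem_univ i)))
    · rw [ratVec_sub, hsingle]
  refine ⟨S, fun v hv => ?_, ?_⟩
  · apply hball
    rw [hS, Finset.mem_union] at hv
    have key : ∀ w : Fin n → ℝ, ‖w‖ ≤ m → ratVec r + w ∈ Metric.ball x ε := by
      intro w hw
      rw [mem_ball_iff_norm]
      have e : ratVec r + w - x = w - (x - ratVec r) := by abel
      rw [e]
      have := norm_sub_le w (x - ratVec r)
      linarith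
    rcases hv with hv | hv
    · obtain ⟨i, _, rfl⟩ := Finset.mem_image.1 hv
      rw [ratVec_add, hsingle]
      exact key _ (hnorm i).le
    · obtain ⟨i, _, rfl⟩ := Finset.mem_image.1 hv
      rw [ratVec_sub, hsingle, sub_eq_add_neg]
      exact key _ (by rw [norm_neg]; exact (hnorm i).le)
  · refine Filter.mem_of_superset (Metric.ball_mem_nhds x hδ0) fun y hy => ?_
    rw [mem_ball_iff_norm] at hy
    set w : Fin n → ℝ := y - ratVec r with hw
    have hwn : ‖w‖ < 2 * δ := by
      have e : w = (y - x) + (x - ratVec r) := by rw [hw]; abel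
      rw [e]
      have := norm_add_le (y - x) (x - ratVec r)
      linarith
    have hwi : ∀ i, |w i| ≤ m / n := by
      intro i
      have h1 : |w i| ≤ ‖w‖ := norm_le_pi_norm w i
      have h2 : 2 * δ = m / n := by rw [hδ]; field_simp
      linarith
    -- `y` as a combination
    have hy2 : y = ∑ i : Fin n, (((1 / n + w i / m) / 2) • (ratVec r + Pi.single i (m : ℝ)) +
        ((1 / n - w i / m) / 2) • (ratVec r - Pi.single i (m : ℝ))) := by
      have h1 : ∀ i : Fin n, ((1 / n + w i / m) / 2) • (ratVec r + Pi.single i (m : ℝ)) +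
          ((1 / n - w i / m) / 2) • (ratVec r - Pi.single i (m : ℝ)) =
          (1 / (n : ℝ)) • ratVec r + Pi.single i (w i) := by
        intro i
        funext j
        by_cases hj : j = i
        · subst hj
          simp only [Pi.add_apply, Pi.smul_apply, Pi.sub_apply, Pi.single_eq_same, smul_eq_mul]
          field_simp
          ring
        · simp only [Pi.add_apply, Pi.smul_apply, Pi.sub_apply, Pi.single_eq_of_ne hj,
            smul_eq_mul]
          ring
      rw [Finset.sum_congr rfl (fun i _ => h1 i), Finset.sum_add_distrib, Finset.sum_const,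
        Finset.card_univ, Fintype.card_fin]
      have h2 : ∑ i : Fin n, (Pi.single i (w i) : Fin n → ℝ) = w := by
        funext j
        simp [Finset.sum_apply, Pi.single_apply]
      rw [h2]
      have h3 : n • ((1 / (n : ℝ)) • ratVec r) = ratVec r := by
        rw [← Nat.cast_smul_eq_nsmul ℝ, smul_smul, mul_one_div_cancel hn0.ne', one_smul]
      rw [h3, hw]
      abel
    rw [hy2]
    refine Submodule.sum_mem _ fun i _ => Submodule.add_mem _ ?_ ?_
    · refine PointedCone.smul_mem _ ?_ (hP i)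
      have h1 := (abs_le.1 (hwi i)).1
      have h2 : -(1 / (n : ℝ)) ≤ w i / m := by
        rw [le_div_iff₀ hm1]
        calc -(1 / (n : ℝ)) * m = -(m / n) := by ring
          _ ≤ w i := h1
      linarith
    · refine PointedCone.smul_mem _ ?_ (hM i)
      have h1 := (abs_le.1 (hwi i)).2
      have h2 : w i / m ≤ 1 / (n : ℝ) := by
        rw [div_le_iff₀ hm1]
        calc w i ≤ m / n := h1
          _ = 1 / n * m := by ring
      linarith

lemma mem_translates {G : Subgroup (GL (Fin n) ℤ)} {P : Set (Fin n → ℝ)} {x : Fin n → ℝ} :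
    x ∈ translates G P ↔ ∃ γ ∈ G, ∃ y ∈ P, act γ.val y = x := by
  unfold translates
  constructor
  · intro h
    obtain ⟨γ, hγ, y, hy, he⟩ := Set.mem_iUnion₂.1 h
    exact ⟨γ, hγ, y, hy, he⟩
  · rintro ⟨γ, hγ, y, hy, he⟩
    exact Set.mem_iUnion₂.2 ⟨γ, hγ, y, hy, he⟩

theorem final (Nef Eff : PointedCone ℝ (Fin n → ℝ)) (D : Set (Fin n → ℤ))
    (hample : (interior (Nef : Set (Fin n → ℝ))).Nonempty)
    (hEff : Eff = PointedCone.hull ℝ (intVec '' D))
    (hampleEff : interior (Nef : Set (Fin n → ℝ)) ⊆ (Eff : Set (Fin n → ℝ)))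
    (hsal : ∀ x, x ∈ closure (Eff : Set (Fin n → ℝ)) → -x ∈ closure (Eff : Set (Fin n → ℝ)) →
      x = 0)
    (G : Subgroup (GL (Fin n) ℤ))
    (hGNef : ∀ g ∈ G, ∀ x ∈ Nef, act g.val x ∈ Nef)
    (hGEff : ∀ g ∈ G, ∀ x ∈ Eff, act g.val x ∈ Eff) :
    ((∃ S : Finset (Fin n → ℚ), ratCone S ⊆ (Nef : Set (Fin n → ℝ)) ∧
        interior (Nef : Set (Fin n → ℝ)) ⊆ translates G (ratCone S)) →
      (Nef : Set (Fin n → ℝ)) ∩ Eff ⊆ ratHull Nef ∧ HasDomain G (ratHull Nef)) ∧
    (HasDomain G ((Nef : Set (Fin n → ℝ)) ∩ Eff) ↔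
      ∃ S : Finset (Fin n → ℚ), ratCone S ⊆ (Nef : Set (Fin n → ℝ)) ∩ Eff ∧
        interior (Nef : Set (Fin n → ℝ)) ⊆ translates G (ratCone S)) ∧
    (HasDomain G ((Nef : Set (Fin n → ℝ)) ∩ Eff) ↔
      HasDomain G (ratHull Nef) ∧ ratHull Nef ⊆ (Eff : Set (Fin n → ℝ))) ∧
    ((∃ C : Set (Fin n → ℝ), IsCompact C ∧ C ⊆ interior (Nef : Set (Fin n → ℝ)) ∧
        interior (Nef : Set (Fin n → ℝ)) ⊆
          translates G {x | ∃ t : ℝ, 0 < t ∧ ∃ y ∈ C, x = t • y}) →
      HasDomain G ((Nef : Set (Fin n → ℝ)) ∩ Eff) ∧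
        (Nef : Set (Fin n → ℝ)) ∩ Eff = interior (Nef : Set (Fin n → ℝ)) ∪ {0}) := by
  classical
  set K : PointedCone ℝ (Fin n → ℝ) := Eff.closure with hK
  have hKcl : IsClosed (K : Set (Fin n → ℝ)) := isClosed_closure
  have hKsal : ∀ x, x ∈ K → -x ∈ K → x = 0 := hsal
  have hEK : ∀ x ∈ Eff, x ∈ K := fun x hx => subset_closure hx
  have hNK : Nef ≤ K := by
    intro x hx
    have h1 : closure (interior (Nef : Set (Fin n → ℝ))) = closure (Nef : Set (Fin n → ℝ)) :=
      (PointedCone.convex Nef).closure_interior_eq_closure_of_nonempty_interior hample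
    have h2 : x ∈ closure (interior (Nef : Set (Fin n → ℝ))) := by
      rw [h1]; exact subset_closure hx
    exact closure_mono (fun y hy => hampleEff hy) h2
  have hGK : ∀ γ ∈ G, ∀ x ∈ K, act γ.val x ∈ K := by
    intro γ hγ x hx
    exact map_mem_closure (act_continuous _) hx (fun w hw => hGEff γ hγ w hw)
  have hEffK : ∀ x ∈ Eff, x ∈ PointedCone.hull ℝ (latK K 1) := by
    intro x hx
    rw [hEff] at hx
    refine Submodule.span_mono ?_ hx
    rintro _ ⟨d, hd, rfl⟩
    refine ⟨hEK _ ?_, d, by rw [Nat.cast_one, one_smul]⟩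
    rw [hEff]
    exact Submodule.subset_span ⟨d, hd, rfl⟩
  have hintK : ∀ x ∈ interior (Nef : Set (Fin n → ℝ)), x ∈ PointedCone.hull ℝ (latK K 1) :=
    fun x hx => hEffK x (hampleEff hx)
  have hplusK : ∀ x ∈ ratHull Nef, x ∈ PointedCone.hull ℝ (latK K 1) := by
    intro x hx
    have hle : PointedCone.hull ℝ {x | x ∈ Nef ∧ ∃ v : Fin n → ℚ, x = ratVec v} ≤
        PointedCone.hull ℝ (latK K 1) := by
      refine Submodule.span_le.2 ?_
      rintro _ ⟨h1, v, rfl⟩
      exact ratVec_mem_hull (hNK h1)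
    exact hle hx
  have hplusN : ∀ x ∈ ratHull Nef, x ∈ Nef := by
    intro x hx
    have hle : PointedCone.hull ℝ {x | x ∈ Nef ∧ ∃ v : Fin n → ℚ, x = ratVec v} ≤ Nef :=
      Submodule.span_le.2 (fun y hy => hy.1)
    exact hle hx
  have hratplus : ∀ S : Finset (Fin n → ℚ), ratCone S ⊆ (Nef : Set (Fin n → ℝ)) →
      ratCone S ⊆ ratHull Nef := by
    intro S hS x hx
    refine Submodule.span_mono ?_ hx
    rintro _ ⟨v, hv, rfl⟩
    exact ⟨hS (Submodule.subset_span ⟨v, hv, rfl⟩), v, rfl⟩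
  have hplusG : ∀ γ ∈ G, ∀ x ∈ ratHull Nef, act γ.val x ∈ ratHull Nef := by
    intro γ hγ x hx
    have h1 := act_hull γ.val _ hx
    refine Submodule.span_mono ?_ h1
    rintro _ ⟨_, ⟨h2, v, rfl⟩, rfl⟩
    exact ⟨hGNef γ hγ _ h2, ra γ.val v, (ratVec_ra _ _).symm⟩
  have hintplus : ∀ x ∈ interior (Nef : Set (Fin n → ℝ)), x ∈ ratHull Nef := by
    intro x hx
    obtain ⟨S, hS1, hS2⟩ := exists_ratCone_nhds isOpen_interior hx
    refine Submodule.span_mono ?_ (mem_of_mem_nhds hS2)
    rintro _ ⟨v, hv, rfl⟩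
    exact ⟨interior_subset (hS1 v hv), v, rfl⟩
  have hdom := fun (S₀ : Finset (Fin n → ℚ)) (h1 : ratCone S₀ ⊆ (Nef : Set (Fin n → ℝ)))
    (h2 : interior (Nef : Set (Fin n → ℝ)) ⊆ translates G (ratCone S₀)) =>
    domain K Nef hKcl hKsal hNK hample G hGK hGNef hintK S₀ h1
      (fun x hx => mem_translates.1 (h2 hx))
  -- first part
  have hA : (∃ S : Finset (Fin n → ℚ), ratCone S ⊆ (Nef : Set (Fin n → ℝ)) ∧
        interior (Nef : Set (Fin n → ℝ)) ⊆ translates G (ratCone S)) →
      (Nef : Set (Fin n → ℝ)) ∩ Eff ⊆ ratHull Nef ∧ HasDomain G (ratHull Nef) := by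
    rintro ⟨S₀, h1, h2⟩
    obtain ⟨S, hS1, hS2, hS3, hS4⟩ := hdom S₀ h1 h2
    have hSp : ratCone S ⊆ ratHull Nef := hratplus S (fun y hy => hS1 y hy)
    refine ⟨?_, S, hSp, ?_, fun g hg hg1 => (hS4 g hg hg1).inter_eq⟩
    · rintro x ⟨hx1, hx2⟩
      obtain ⟨γ, hγ, y, hy, rfl⟩ := hS2 x hx1 (hEffK x hx2)
      exact hplusG γ hγ y (hSp hy)
    · apply Set.Subset.antisymm
      · intro x hx
        exact mem_translates.2 (hS2 x (hplusN x hx) (hplusK x hx))
      · intro x hx
        obtain ⟨γ, hγ, y, hy, rfl⟩ := mem_translates.1 hx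
        exact hplusG γ hγ y (hSp hy)
  -- second part
  have hB : HasDomain G ((Nef : Set (Fin n → ℝ)) ∩ Eff) ↔
      ∃ S : Finset (Fin n → ℚ), ratCone S ⊆ (Nef : Set (Fin n → ℝ)) ∩ Eff ∧
        interior (Nef : Set (Fin n → ℝ)) ⊆ translates G (ratCone S) := by
    constructor
    · rintro ⟨S, h1, h2, _⟩
      refine ⟨S, h1, fun x hx => ?_⟩
      rw [← h2]
      exact ⟨interior_subset hx, hampleEff hx⟩
    · rintro ⟨S₀, h1, h2⟩
      obtain ⟨S, hS1, hS2, hS3, hS4⟩ := hdom S₀ (fun x hx => (h1 hx).1) h2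
      have hSE : ∀ y ∈ ratCone S, y ∈ Eff := by
        intro y hy
        obtain ⟨γ, hγ, z, hz, rfl⟩ := hS3 y hy
        exact hGEff γ hγ z (h1 hz).2
      refine ⟨S, fun y hy => ⟨hS1 y hy, hSE y hy⟩, ?_, fun g hg hg1 => (hS4 g hg hg1).inter_eq⟩
      apply Set.Subset.antisymm
      · rintro x ⟨hx1, hx2⟩
        exact mem_translates.2 (hS2 x hx1 (hEffK x hx2))
      · intro x hx
        obtain ⟨γ, hγ, y, hy, rfl⟩ := mem_translates.1 hx
        exact ⟨hGNef γ hγ y (hS1 y hy), hGEff γ hγ y (hSE y hy)⟩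
  refine ⟨hA, hB, ⟨fun h => ?_, fun h => ?_⟩, ?_⟩
  · obtain ⟨S₀, h1, h2⟩ := hB.1 h
    refine ⟨(hA ⟨S₀, fun x hx => (h1 hx).1, h2⟩).2, fun x hx => ?_⟩
    obtain ⟨S, hS1, hS2, hS3, hS4⟩ := hdom S₀ (fun x hx => (h1 hx).1) h2
    obtain ⟨γ, hγ, y, hy, rfl⟩ := hS2 x (hplusN x hx) (hplusK x hx)
    obtain ⟨γ', hγ', z, hz, rfl⟩ := hS3 y hy
    exact hGEff γ hγ _ (hGEff γ' hγ' z (h1 hz).2)
  · obtain ⟨⟨S, h1, h2, _⟩, h4⟩ := h
    refine hB.2 ⟨S, fun x hx => ⟨hplusN x (h1 hx), h4 (h1 hx)⟩, fun x hx => ?_⟩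
    rw [← h2]
    exact hintplus x hx
  · rintro ⟨C, hC, hCi, hCG⟩
    -- a finite rational cone containing the compact set
    have hloc : ∀ x ∈ C, ∃ S : Finset (Fin n → ℚ),
        (∀ v ∈ S, ratVec v ∈ interior (Nef : Set (Fin n → ℝ))) ∧ ratCone S ∈ 𝓝 x :=
      fun x hx => exists_ratCone_nhds isOpen_interior (hCi hx)
    choose! T hT1 hT2 using hloc
    obtain ⟨t, htC, htcov⟩ := hC.elim_nhds_subcover (fun x => ratCone (T x)) hT2
    set S₀ : Finset (Fin n → ℚ) := t.biUnion T with hS₀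
    have hgen : ∀ v ∈ S₀, ratVec v ∈ interior (Nef : Set (Fin n → ℝ)) := by
      intro v hv
      obtain ⟨x, hx, hvx⟩ := Finset.mem_biUnion.1 hv
      exact hT1 x (htC x hx) v hvx
    have hCS : C ⊆ ratCone S₀ := by
      intro x hx
      obtain ⟨y, hy⟩ := Set.mem_iUnion.1 (htcov hx)
      obtain ⟨hyt, hxy⟩ := Set.mem_iUnion.1 hy
      refine Submodule.span_mono ?_ hxy
      refine Set.image_mono fun v hv => ?_
      exact Finset.mem_coe.2 (Finset.mem_biUnion.2 ⟨y, hyt, hv⟩)
    -- positive combinations of interior points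
    have hadd : ∀ x ∈ interior (Nef : Set (Fin n → ℝ)), ∀ y ∈ Nef,
        x + y ∈ interior (Nef : Set (Fin n → ℝ)) := by
      intro x hx y hy
      have hopen : IsOpen ((fun w : Fin n → ℝ => w - y) ⁻¹'
          (interior (Nef : Set (Fin n → ℝ)))) := by
        refine isOpen_interior.preimage ?_
        fun_prop
      refine mem_interior.2 ⟨_, ?_, hopen, ?_⟩
      · intro w hw
        have h1 : w - y ∈ Nef := interior_subset hw
        have h3 := Submodule.add_mem _ h1 hy
        rwa [sub_add_cancel] at h3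
      · show x + y - y ∈ interior (Nef : Set (Fin n → ℝ))
        rwa [add_sub_cancel_right]
    have hsmul : ∀ x ∈ interior (Nef : Set (Fin n → ℝ)), ∀ a : ℝ, 0 < a →
        a • x ∈ interior (Nef : Set (Fin n → ℝ)) := by
      intro x hx a ha
      have hopen : IsOpen ((fun w : Fin n → ℝ => a⁻¹ • w) ⁻¹'
          (interior (Nef : Set (Fin n → ℝ)))) := by
        refine isOpen_interior.preimage ?_
        fun_prop
      refine mem_interior.2 ⟨_, ?_, hopen, ?_⟩
      · intro w hw
        have h1 : a⁻¹ • w ∈ Nef := interior_subset hw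
        have h3 := PointedCone.smul_mem Nef ha.le h1
        rwa [smul_smul, mul_inv_cancel₀ ha.ne', one_smul] at h3
      · show a⁻¹ • (a • x) ∈ interior (Nef : Set (Fin n → ℝ))
        rwa [smul_smul, inv_mul_cancel₀ ha.ne', one_smul]
    have hcone : ∀ x ∈ ratCone S₀, x ∈ interior (Nef : Set (Fin n → ℝ)) ∨ x = 0 := by
      intro x hx
      unfold ratCone at hx
      induction hx using Submodule.span_induction with
      | mem y hy =>
        obtain ⟨v, hv, rfl⟩ := hy
        exact Or.inl (hgen v hv)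
      | zero => exact Or.inr rfl
      | add y z _ _ hy hz =>
        rcases hy with hy | rfl
        · rcases hz with hz | rfl
          · exact Or.inl (hadd y hy z (interior_subset hz))
          · rw [add_zero]; exact Or.inl hy
        · rw [zero_add]; exact hz
      | smul a y _ hy =>
        have e : a • y = (a : ℝ) • y := rfl
        rcases hy with hy | rfl
        · rcases eq_or_lt_of_le a.2 with h0 | hpos
          · right; rw [e, ← h0, zero_smul]
          · left; rw [e]; exact hsmul y hy _ hpos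
        · right; exact smul_zero a
    have hcov : interior (Nef : Set (Fin n → ℝ)) ⊆ translates G (ratCone S₀) := by
      intro x hx
      obtain ⟨γ, hγ, y, ⟨a, ha, z, hz, rfl⟩, he⟩ := mem_translates.1 (hCG hx)
      exact mem_translates.2 ⟨γ, hγ, _, PointedCone.smul_mem _ ha.le (hCS hz), he⟩
    have hS₀E : ratCone S₀ ⊆ (Nef : Set (Fin n → ℝ)) ∩ Eff := by
      intro x hx
      rcases hcone x hx with h | rfl
      · exact ⟨interior_subset h, hampleEff h⟩
      · exact ⟨Submodule.zero_mem _, Submodule.zero_mem _⟩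
    refine ⟨hB.2 ⟨S₀, hS₀E, hcov⟩, ?_⟩
    apply Set.Subset.antisymm
    · rintro x ⟨hx1, hx2⟩
      obtain ⟨S, hS1, hS2, hS3, hS4⟩ := hdom S₀ (fun x hx => (hS₀E hx).1) hcov
      obtain ⟨γ, hγ, y, hy, rfl⟩ := hS2 x hx1 (hEffK x hx2)
      obtain ⟨γ', hγ', z, hz, rfl⟩ := hS3 y hy
      rw [← act_mul_apply, ← Units.val_mul]
      rcases hcone z hz with h | rfl
      · left
        have hg : γ * γ' ∈ G := G.mul_mem hγ hγ'
        have hopen : IsOpen ((fun w => act ((γ * γ')⁻¹ : GL (Fin n) ℤ).val w) ⁻¹'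
            (interior (Nef : Set (Fin n → ℝ)))) :=
          isOpen_interior.preimage (act_continuous _)
        refine mem_interior.2 ⟨_, ?_, hopen, ?_⟩
        · intro w hw
          have h1 : act ((γ * γ')⁻¹ : GL (Fin n) ℤ).val w ∈ Nef := interior_subset hw
          have h2 := hGNef _ hg _ h1
          rwa [act_inv_val] at h2
        · show act ((γ * γ')⁻¹ : GL (Fin n) ℤ).val (act (γ * γ').val z) ∈
            interior (Nef : Set (Fin n → ℝ))
          rw [act_val_inv]; exact h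
      · right; rw [map_zero]; rfl
    · rintro x (hx | hx)
      · exact ⟨interior_subset hx, hampleEff hx⟩
      · rw [Set.mem_singleton_iff.1 hx]
        exact ⟨Submodule.zero_mem _, Submodule.zero_mem _⟩

end Pool.Agent.H55.Cone
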