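import Pool.Agent.H55.Cone.Final

/-!
Groups acting cocompactly on the cone of nef and big classes.
-/

set_option autoImplicit false

namespace Pool.Agent.H55.Cone

open Finset Filter Topology Pool.Agent.H93Cone

variable {n : ℕ}

lemma add_mem_interior (N : PointedCone ℝ (Fin n → ℝ)) {x y : Fin n → ℝ}
    (hx : x ∈ interior (N : Set (Fin n → ℝ))) (hy : y ∈ N) :
    x + y ∈ interior (N : Set (Fin n → ℝ)) := by
  have hopen : IsOpen ((fun w : Fin n → ℝ => w - y) ⁻¹' (interior (N : Set (Fin n → ℝ)))) := by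
    refine isOpen_interior.preimage ?_
    fun_prop
  refine mem_interior.2 ⟨_, ?_, hopen, ?_⟩
  · intro w hw
    have h1 : w - y ∈ N := interior_subset hw
    have h3 := Submodule.add_mem _ h1 hy
    rwa [sub_add_cancel] at h3
  · show x + y - y ∈ interior (N : Set (Fin n → ℝ))
    rwa [add_sub_cancel_right]

lemma smul_mem_interior (N : PointedCone ℝ (Fin n → ℝ)) {x : Fin n → ℝ}
    (hx : x ∈ interior (N : Set (Fin n → ℝ))) {a : ℝ} (ha : 0 < a) :
    a • x ∈ interior (N : Set (Fin n → ℝ)) := by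
  have hopen : IsOpen ((fun w : Fin n → ℝ => a⁻¹ • w) ⁻¹'
      (interior (N : Set (Fin n → ℝ)))) := by
    refine isOpen_interior.preimage ?_
    fun_prop
  refine mem_interior.2 ⟨_, ?_, hopen, ?_⟩
  · intro w hw
    have h1 : a⁻¹ • w ∈ N := interior_subset hw
    have h3 := PointedCone.smul_mem N ha.le h1
    rwa [smul_smul, mul_inv_cancel₀ ha.ne', one_smul] at h3
  · show a⁻¹ • (a • x) ∈ interior (N : Set (Fin n → ℝ))
    rwa [smul_smul, inv_mul_cancel₀ ha.ne', one_smul]

lemma act_mem_interior (N : PointedCone ℝ (Fin n → ℝ)) {G : Subgroup (GL (Fin n) ℤ)}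
    (hG : ∀ g ∈ G, ∀ x ∈ N, act g.val x ∈ N) {γ : GL (Fin n) ℤ} (hγ : γ ∈ G) {x : Fin n → ℝ}
    (hx : x ∈ interior (N : Set (Fin n → ℝ))) :
    act γ.val x ∈ interior (N : Set (Fin n → ℝ)) := by
  have hopen : IsOpen ((fun w => act (γ⁻¹ : GL (Fin n) ℤ).val w) ⁻¹'
      (interior (N : Set (Fin n → ℝ)))) :=
    isOpen_interior.preimage (act_continuous _)
  refine mem_interior.2 ⟨_, ?_, hopen, ?_⟩
  · intro w hw
    have h1 : act (γ⁻¹ : GL (Fin n) ℤ).val w ∈ N := interior_subset hw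
    have h2 := hG _ hγ _ h1
    rwa [act_inv_val] at h2
  · show act (γ⁻¹ : GL (Fin n) ℤ).val (act γ.val x) ∈ interior (N : Set (Fin n → ℝ))
    rw [act_val_inv]; exact hx

/-- Shrinking a rational polyhedral neighbourhood in `N` into the interior of `E`. -/
lemma shrink (N E : PointedCone ℝ (Fin n → ℝ)) (hNE : N ≤ E.closure) (q : Fin n → ℚ) {c : ℝ}
    (hc : 0 < c) (hq : ∀ x ∈ E.closure, c * ‖x‖ ≤ ratVec q ⬝ᵥ x) {x : Fin n → ℝ} (hx0 : x ≠ 0)
    (hxE : x ∈ interior (E : Set (Fin n → ℝ))) (hxN : x ∈ N) {S : Finset (Fin n → ℚ)}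
    (hS : ratCone S ⊆ (N : Set (Fin n → ℝ)))
    (hSx : ratCone S ∈ 𝓝[(N : Set (Fin n → ℝ))] x) :
    ∃ S' : Finset (Fin n → ℚ), ratCone S' ⊆ (N : Set (Fin n → ℝ)) ∧
      (∀ y ∈ ratCone S', y ∈ interior (E : Set (Fin n → ℝ)) ∨ y = 0) ∧
      ratCone S' ∈ 𝓝[(N : Set (Fin n → ℝ))] x := by
  classical
  have hqpos : ∀ y ∈ N, y ≠ 0 → 0 < ratVec q ⬝ᵥ y := fun y hy h0 =>
    lt_of_lt_of_le (mul_pos hc (norm_pos_iff.2 h0)) (hq y (hNE hy))
  set l : ℝ := ratVec q ⬝ᵥ x with hl
  have hl0 : 0 < l := hqpos x hxN hx0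
  set x' : Fin n → ℝ := l⁻¹ • x with hx'
  have hx'E : x' ∈ interior (E : Set (Fin n → ℝ)) := smul_mem_interior E hxE (inv_pos.2 hl0)
  obtain ⟨ε, hε, hball⟩ := Metric.isOpen_iff.1 isOpen_interior x' hx'E
  obtain ⟨δ, hδ1, hδ2⟩ := exists_rat_btwn (show (0 : ℝ) < ε / 3 by linarith)
  have hr : ∀ i, ∃ r : ℚ, |x' i - (r : ℝ)| < δ := by
    intro i
    obtain ⟨r, hr1, hr2⟩ := exists_rat_btwn (show x' i - δ < x' i + δ by linarith)
    exact ⟨r, by rw [abs_lt]; constructor <;> linarith⟩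
  choose r hr using hr
  let wp : Fin n → (Fin n → ℚ) := fun i => (δ + r i) • q - Pi.single i 1
  let wm : Fin n → (Fin n → ℚ) := fun i => (δ - r i) • q + Pi.single i 1
  have hsingle : ∀ i : Fin n, ∀ y : Fin n → ℝ,
      ratVec (Pi.single i 1 : Fin n → ℚ) ⬝ᵥ y = y i := by
    intro i y
    have : ratVec (Pi.single i 1 : Fin n → ℚ) = (Pi.single i (1 : ℝ) : Fin n → ℝ) := by
      funext j
      by_cases hj : j = i
      · subst hj; simp [ratVec]
      · simp [ratVec, hj]
    rw [this, single_one_dotProduct]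
  have hwp : ∀ i y, ratVec (wp i) ⬝ᵥ y = (δ + r i) * (ratVec q ⬝ᵥ y) - y i := by
    intro i y
    rw [ratVec_sub, sub_dotProduct, ratVec_smul, smul_dotProduct, hsingle, smul_eq_mul]
    push_cast; ring
  have hwm : ∀ i y, ratVec (wm i) ⬝ᵥ y = (δ - r i) * (ratVec q ⬝ᵥ y) + y i := by
    intro i y
    rw [ratVec_add, add_dotProduct, ratVec_smul, smul_dotProduct, hsingle, smul_eq_mul]
    push_cast; ring
  obtain ⟨S', hS'⟩ := mw_list S ((List.ofFn wp) ++ (List.ofFn wm))
  refine ⟨S', fun y hy => hS ((hS' y).1 hy).1, fun y hy => ?_, ?_⟩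
  · by_cases h0 : y = 0
    · exact Or.inr h0
    left
    obtain ⟨h1, h2⟩ := (hS' y).1 hy
    have hyN : y ∈ N := hS h1
    have hqy := hqpos y hyN h0
    set m : ℝ := ratVec q ⬝ᵥ y with hm
    have hp : ∀ i, y i ≤ (δ + r i) * m := by
      intro i
      have := h2 (wp i) (List.mem_append.2 (Or.inl (List.mem_ofFn.2 ⟨i, rfl⟩)))
      rw [hwp] at this
      linarith
    have hmm : ∀ i, -((δ - r i) * m) ≤ y i := by
      intro i
      have := h2 (wm i) (List.mem_append.2 (Or.inr (List.mem_ofFn.2 ⟨i, rfl⟩)))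
      rw [hwm] at this
      linarith
    have h3 : m⁻¹ • y ∈ interior (E : Set (Fin n → ℝ)) := by
      apply hball
      rw [mem_ball_iff_norm]
      refine lt_of_le_of_lt (b := 2 * (δ : ℝ)) ?_ (by linarith)
      rw [pi_norm_le_iff_of_nonneg (by linarith)]
      intro i
      have e1 : |(m⁻¹ • y) i - r i| ≤ δ := by
        rw [Pi.smul_apply, smul_eq_mul, abs_le]
        have ha := hp i
        have hb := hmm i
        constructor
        · have : -(δ : ℝ) + r i ≤ m⁻¹ * y i := by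
            rw [← div_eq_inv_mul, le_div_iff₀ hqy]
            linarith
          linarith
        · have : m⁻¹ * y i ≤ δ + r i := by
            rw [← div_eq_inv_mul, div_le_iff₀ hqy]
            linarith
          linarith
      have e2 := hr i
      have e3 : (m⁻¹ • y - x') i = ((m⁻¹ • y) i - r i) - (x' i - r i) := by
        simp only [Pi.sub_apply]; ring
      rw [e3, Real.norm_eq_abs]
      have := abs_sub ((m⁻¹ • y) i - r i) (x' i - r i)
      linarith
    have h4 := smul_mem_interior E h3 hqy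
    rwa [smul_smul, mul_inv_cancel₀ hqy.ne', one_smul] at h4
  · have hopen : ∀ w : Fin n → ℚ, 0 < ratVec w ⬝ᵥ x →
        ∀ᶠ y in 𝓝[(N : Set (Fin n → ℝ))] x, 0 ≤ ratVec w ⬝ᵥ y := by
      intro w hw
      have h1 : ∀ᶠ y in 𝓝 x, 0 < ratVec w ⬝ᵥ y :=
        (isOpen_lt continuous_const (continuous_dot' (ratVec w))).mem_nhds hw
      exact nhdsWithin_le_nhds (h1.mono fun y hy => hy.le)
    have hxi : ∀ i, x i = l * x' i := by
      intro i
      rw [hx', Pi.smul_apply, smul_eq_mul, ← mul_assoc, mul_inv_cancel₀ hl0.ne', one_mul]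
    have hall : ∀ᶠ y in 𝓝[(N : Set (Fin n → ℝ))] x, ∀ w ∈ (List.ofFn wp) ++ (List.ofFn wm),
        0 ≤ ratVec w ⬝ᵥ y := by
      have hp : ∀ᶠ y in 𝓝[(N : Set (Fin n → ℝ))] x, ∀ i, 0 ≤ ratVec (wp i) ⬝ᵥ y := by
        refine eventually_all.2 fun i => hopen _ ?_
        rw [hwp, ← hl, hxi i]
        have h1 := (abs_lt.1 (hr i)).2
        have : (δ + r i) * l - l * x' i = l * (δ - (x' i - r i)) := by ring
        rw [this]
        exact mul_pos hl0 (by linarith)
      have hm : ∀ᶠ y in 𝓝[(N : Set (Fin n → ℝ))] x, ∀ i, 0 ≤ ratVec (wm i) ⬝ᵥ y := by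
        refine eventually_all.2 fun i => hopen _ ?_
        rw [hwm, ← hl, hxi i]
        have h1 := (abs_lt.1 (hr i)).1
        have : (δ - r i) * l + l * x' i = l * (δ + (x' i - r i)) := by ring
        rw [this]
        exact mul_pos hl0 (by linarith)
      filter_upwards [hp, hm] with y h1 h2 w hw
      rcases List.mem_append.1 hw with hw | hw
      · obtain ⟨i, rfl⟩ := List.mem_ofFn.1 hw
        exact h1 i
      · obtain ⟨i, rfl⟩ := List.mem_ofFn.1 hw
        exact h2 i
    filter_upwards [hSx, hall] with y h1 h2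
    exact (hS' y).2 ⟨h1, h2⟩

theorem big (Nef Eff : PointedCone ℝ (Fin n → ℝ)) (D : Set (Fin n → ℤ))
    (hample : (interior (Nef : Set (Fin n → ℝ))).Nonempty)
    (hEff : Eff = PointedCone.hull ℝ (intVec '' D))
    (hampleEff : interior (Nef : Set (Fin n → ℝ)) ⊆ (Eff : Set (Fin n → ℝ)))
    (hsal : ∀ x, x ∈ closure (Eff : Set (Fin n → ℝ)) → -x ∈ closure (Eff : Set (Fin n → ℝ)) →
      x = 0)
    (G : Subgroup (GL (Fin n) ℤ))
    (hGNef : ∀ g ∈ G, ∀ x ∈ Nef, act g.val x ∈ Nef)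
    (hGEff : ∀ g ∈ G, ∀ x ∈ Eff, act g.val x ∈ Eff)
    (hloc : ∀ x ∈ (Nef : Set (Fin n → ℝ)) ∩ interior (Eff : Set (Fin n → ℝ)),
      ∃ S : Finset (Fin n → ℚ), ratCone S ⊆ (Nef : Set (Fin n → ℝ)) ∧
        ratCone S ∈ 𝓝[(Nef : Set (Fin n → ℝ))] x) :
    (HasDomain G ((Nef : Set (Fin n → ℝ)) ∩ Eff) ∧
      (Nef : Set (Fin n → ℝ)) ∩ Eff ⊆ interior (Eff : Set (Fin n → ℝ)) ∪ {0}) ↔
    ∃ C : Set (Fin n → ℝ), IsCompact C ∧
      C ⊆ (Nef : Set (Fin n → ℝ)) ∩ interior (Eff : Set (Fin n → ℝ)) ∧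
      (Nef : Set (Fin n → ℝ)) ∩ interior (Eff : Set (Fin n → ℝ)) ⊆
        translates G {x | ∃ t : ℝ, 0 < t ∧ ∃ y ∈ C, x = t • y} := by
  classical
  have hfin := final Nef Eff D hample hEff hampleEff hsal G hGNef hGEff
  have hNK : Nef ≤ Eff.closure := by
    intro x hx
    have h1 : closure (interior (Nef : Set (Fin n → ℝ))) = closure (Nef : Set (Fin n → ℝ)) :=
      (PointedCone.convex Nef).closure_interior_eq_closure_of_nonempty_interior hample
    have h2 : x ∈ closure (interior (Nef : Set (Fin n → ℝ))) := by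
      rw [h1]; exact subset_closure hx
    exact closure_mono (fun y hy => hampleEff hy) h2
  obtain ⟨q, c, hc, hq⟩ := exists_pos_rat Eff.closure isClosed_closure hsal
  have hqpos : ∀ y ∈ Nef, y ≠ 0 → 0 < ratVec q ⬝ᵥ y := fun y hy h0 =>
    lt_of_lt_of_le (mul_pos hc (norm_pos_iff.2 h0)) (hq y (hNK hy))
  have hintE : interior (Nef : Set (Fin n → ℝ)) ⊆ interior (Eff : Set (Fin n → ℝ)) :=
    interior_maximal hampleEff isOpen_interior
  -- zero is not big, unless the space is trivial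
  have hzero : (0 : Fin n → ℝ) ∈ interior (Eff : Set (Fin n → ℝ)) → ∀ v : Fin n → ℝ, v = 0 := by
    intro h0 v
    obtain ⟨ε, hε, hball⟩ := Metric.isOpen_iff.1 isOpen_interior 0 h0
    by_contra hv
    have hv0 : 0 < ‖v‖ := norm_pos_iff.2 hv
    set w : Fin n → ℝ := (ε / (2 * ‖v‖)) • v with hw
    have hwn : ‖w‖ < ε := by
      rw [hw, norm_smul, Real.norm_of_nonneg (by positivity)]
      have : ε / (2 * ‖v‖) * ‖v‖ = ε / 2 := by field_simp
      rw [this]; linarith
    have h1 : w ∈ closure (Eff : Set (Fin n → ℝ)) :=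
      subset_closure (interior_subset (hball (by rwa [mem_ball_zero_iff])))
    have h2 : -w ∈ closure (Eff : Set (Fin n → ℝ)) :=
      subset_closure (interior_subset (hball (by rwa [mem_ball_zero_iff, norm_neg])))
    have h3 := hsal w h1 h2
    rw [hw, smul_eq_zero] at h3
    rcases h3 with h3 | h3
    · have : 0 < ε / (2 * ‖v‖) := by positivity
      linarith
    · exact hv h3
  constructor
  · rintro ⟨⟨S, h1, h2, _⟩, h3⟩
    set B : Finset (Fin n → ℝ) := S.image ratVec with hB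
    have hBcoe : (B : Set (Fin n → ℝ)) = ratVec '' (S : Set (Fin n → ℚ)) := by
      rw [hB, Finset.coe_image]
    have hclosed : IsClosed (ratCone S) := by
      unfold ratCone
      rw [← hBcoe]
      refine isClosed_hull B (ratVec q) hc fun v hv => hq v (hNK ?_)
      obtain ⟨u, hu, rfl⟩ := Finset.mem_image.1 hv
      exact (h1 (Submodule.subset_span ⟨u, hu, rfl⟩)).1
    by_cases hz : (0 : Fin n → ℝ) ∈ interior (Eff : Set (Fin n → ℝ))
    · -- trivial space
      have htriv := hzero hz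
      refine ⟨{0}, isCompact_singleton, ?_, ?_⟩
      · rw [Set.singleton_subset_iff]
        exact ⟨Submodule.zero_mem _, hz⟩
      · intro x _
        exact mem_translates.2 ⟨1, G.one_mem, 0, ⟨1, one_pos, 0, rfl, by simp⟩, by
          rw [map_zero]; exact (htriv x).symm⟩
    · refine ⟨ratCone S ∩ {y | ratVec q ⬝ᵥ y = 1}, ?_, ?_, ?_⟩
      · refine (isCompact_closedBall (0 : Fin n → ℝ) (1 / c)).of_isClosed_subset
          (hclosed.inter (isClosed_eq (continuous_dot' _) continuous_const)) ?_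
        rintro x ⟨hxS, hx1⟩
        rw [mem_closedBall_zero_iff, le_div_iff₀ hc, mul_comm]
        have := hq x (hNK (h1 hxS).1)
        rwa [show ratVec q ⬝ᵥ x = 1 from hx1] at this
      · rintro x ⟨hxS, hx1⟩
        refine ⟨(h1 hxS).1, ?_⟩
        rcases h3 (h1 hxS) with h | h
        · exact h
        · have hx1' : ratVec q ⬝ᵥ x = 1 := hx1
          rw [Set.mem_singleton_iff.1 h, dotProduct_zero] at hx1'
          exact absurd hx1' (by norm_num)
      · rintro x ⟨hxN, hxE⟩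
        have hx : x ∈ (Nef : Set (Fin n → ℝ)) ∩ Eff := ⟨hxN, interior_subset hxE⟩
        rw [h2] at hx
        obtain ⟨γ, hγ, y, hy, rfl⟩ := mem_translates.1 hx
        have hy0 : y ≠ 0 := by
          rintro rfl
          rw [map_zero] at hxE
          exact hz hxE
        have hqy := hqpos y (h1 hy).1 hy0
        refine mem_translates.2 ⟨γ, hγ, y, ⟨ratVec q ⬝ᵥ y, hqy, (ratVec q ⬝ᵥ y)⁻¹ • y, ⟨?_, ?_⟩,
          ?_⟩, rfl⟩
        · exact PointedCone.smul_mem _ (inv_nonneg.2 hqy.le) hy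
        · show ratVec q ⬝ᵥ ((ratVec q ⬝ᵥ y)⁻¹ • y) = 1
          rw [dotProduct_smul, smul_eq_mul, inv_mul_cancel₀ hqy.ne']
        · rw [smul_smul, mul_inv_cancel₀ hqy.ne', one_smul]
  · rintro ⟨C, hC, hCi, hCG⟩
    have hloc' : ∀ x ∈ C, ∃ S : Finset (Fin n → ℚ), ratCone S ⊆ (Nef : Set (Fin n → ℝ)) ∧
        (∀ y ∈ ratCone S, y ∈ interior (Eff : Set (Fin n → ℝ)) ∨ y = 0) ∧
        ratCone S ∈ 𝓝[(Nef : Set (Fin n → ℝ))] x := by
      intro x hx
      by_cases hx0 : x = 0
      · -- trivial space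
        have hz : (0 : Fin n → ℝ) ∈ interior (Eff : Set (Fin n → ℝ)) := hx0 ▸ (hCi hx).2
        have htriv := hzero hz
        refine ⟨∅, fun y _ => ?_, fun y _ => Or.inr (htriv y), ?_⟩
        · rw [htriv y]; exact Submodule.zero_mem _
        · refine Filter.mem_of_superset Filter.univ_mem fun y _ => ?_
          rw [htriv y]; exact Submodule.zero_mem _
      · obtain ⟨S, h1, h2⟩ := hloc x (hCi hx)
        exact shrink Nef Eff hNK q hc hq hx0 (hCi hx).2 (hCi hx).1 h1 h2
    choose! T hT1 hT2 hT3 using hloc'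
    obtain ⟨t, htC, htcov⟩ := hC.elim_nhds_subcover
      (fun x => {y | y ∈ (Nef : Set (Fin n → ℝ)) → y ∈ ratCone (T x)})
      (fun x hx => by
        have h := hT3 x hx
        rw [mem_nhdsWithin_iff_eventually] at h
        exact h)
    set S₀ : Finset (Fin n → ℚ) := t.biUnion T with hS₀
    have hcone : ∀ x ∈ ratCone S₀, x ∈ Nef ∧
        (x ∈ interior (Eff : Set (Fin n → ℝ)) ∨ x = 0) := by
      intro x hx
      unfold ratCone at hx
      induction hx using Submodule.span_induction with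
      | mem y hy =>
        obtain ⟨v, hv, rfl⟩ := hy
        obtain ⟨x, hx, hvx⟩ := Finset.mem_biUnion.1 (Finset.mem_coe.1 hv)
        have h1 : ratVec v ∈ ratCone (T x) := Submodule.subset_span ⟨v, hvx, rfl⟩
        exact ⟨hT1 x (htC x hx) h1, hT2 x (htC x hx) _ h1⟩
      | zero => exact ⟨Submodule.zero_mem _, Or.inr rfl⟩
      | add y z _ _ hy hz =>
        refine ⟨Submodule.add_mem _ hy.1 hz.1, ?_⟩
        rcases hy.2 with h | rfl
        · rcases hz.2 with h' | rfl
          · exact Or.inl (add_mem_interior Eff h (interior_subset h'))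
          · rw [add_zero]; exact Or.inl h
        · rw [zero_add]; exact hz.2
      | smul a y _ hy =>
        have e : a • y = (a : ℝ) • y := rfl
        refine ⟨PointedCone.smul_mem _ a.2 hy.1, ?_⟩
        rcases hy.2 with h | rfl
        · rcases eq_or_lt_of_le a.2 with h0 | hpos
          · right; rw [e, ← h0, zero_smul]
          · left; rw [e]; exact smul_mem_interior Eff h hpos
        · right; exact smul_zero a
    have hCS : C ⊆ ratCone S₀ := by
      intro x hx
      obtain ⟨y, hy⟩ := Set.mem_iUnion.1 (htcov hx)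
      obtain ⟨hyt, hxy⟩ := Set.mem_iUnion.1 hy
      refine Submodule.span_mono ?_ (hxy (hCi hx).1)
      refine Set.image_mono fun v hv => ?_
      exact Finset.mem_coe.2 (Finset.mem_biUnion.2 ⟨y, hyt, hv⟩)
    have hcov : (Nef : Set (Fin n → ℝ)) ∩ interior (Eff : Set (Fin n → ℝ)) ⊆
        translates G (ratCone S₀) := by
      intro x hx
      obtain ⟨γ, hγ, y, ⟨a, ha, z, hz, rfl⟩, he⟩ := mem_translates.1 (hCG hx)
      exact mem_translates.2 ⟨γ, hγ, _, PointedCone.smul_mem _ ha.le (hCS hz), he⟩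
    have hcov' : interior (Nef : Set (Fin n → ℝ)) ⊆ translates G (ratCone S₀) :=
      fun x hx => hcov ⟨interior_subset hx, hintE hx⟩
    have hS₀E : ratCone S₀ ⊆ (Nef : Set (Fin n → ℝ)) ∩ Eff := by
      intro x hx
      obtain ⟨h1, h2⟩ := hcone x hx
      rcases h2 with h | rfl
      · exact ⟨h1, interior_subset h⟩
      · exact ⟨Submodule.zero_mem _, Submodule.zero_mem _⟩
    have hdom := hfin.2.1.2 ⟨S₀, hS₀E, hcov'⟩
    refine ⟨hdom, ?_⟩
    -- every nef effective class is in a translate of the given cone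
    rintro x ⟨hx1, hx2⟩
    have hplus := (hfin.1 ⟨S₀, fun y hy => (hS₀E hy).1, hcov'⟩).1 ⟨hx1, hx2⟩
    have hEffK : x ∈ PointedCone.hull ℝ (latK Eff.closure 1) := by
      rw [hEff] at hx2
      refine Submodule.span_mono ?_ hx2
      rintro _ ⟨d, hd, rfl⟩
      refine ⟨subset_closure ?_, d, by rw [Nat.cast_one, one_smul]⟩
      rw [hEff]
      exact Submodule.subset_span ⟨d, hd, rfl⟩
    obtain ⟨S, hS1, hS2, hS3, hS4⟩ := domain Eff.closure Nef isClosed_closure hsal hNK hample G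
      (fun γ hγ x hx => map_mem_closure (act_continuous _) hx (fun w hw => hGEff γ hγ w hw))
      hGNef (by
        intro x hx
        have hx2 : x ∈ Eff := hampleEff hx
        rw [hEff] at hx2
        refine Submodule.span_mono ?_ hx2
        rintro _ ⟨d, hd, rfl⟩
        refine ⟨subset_closure ?_, d, by rw [Nat.cast_one, one_smul]⟩
        rw [hEff]
        exact Submodule.subset_span ⟨d, hd, rfl⟩) S₀ (fun y hy => (hS₀E hy).1)
      (fun x hx => mem_translates.1 (hcov' hx))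
    obtain ⟨γ, hγ, y, hy, rfl⟩ := hS2 x hx1 hEffK
    obtain ⟨γ', hγ', z, hz, rfl⟩ := hS3 y hy
    rcases (hcone z hz).2 with h | rfl
    · left
      exact act_mem_interior Eff hGEff hγ (act_mem_interior Eff hGEff hγ' h)
    · right; rw [map_zero, map_zero]; rfl

end Pool.Agent.H55.Cone
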