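import Pool.Agent.H55.Cone.Lex

/-!
The Dirichlet domain of a group of integer matrices acting on a closed convex cone `N`, under the
hypothesis that the translates of a rational polyhedral cone cover the interior of `N`.
-/

set_option autoImplicit false

namespace Pool.Agent.H55.Cone

open Finset Filter Topology Pool.Agent.H93Cone

variable {n : ℕ}

/-- Vectors of `K` with coordinates in `(1/M) ℤ`. -/
def latK (K : PointedCone ℝ (Fin n → ℝ)) (M : ℕ) : Set (Fin n → ℝ) :=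
  {a | a ∈ K ∧ ∃ z : Fin n → ℤ, (M : ℝ) • a = intVec z}

lemma act_intVec' (g : Matrix (Fin n) (Fin n) ℤ) (d : Fin n → ℤ) :
    act g (intVec d) = intVec (g.mulVec d) := by
  funext i
  simp [act_apply, Matrix.mulVec, dotProduct, intVec]

lemma lat_latK {K : PointedCone ℝ (Fin n → ℝ)} {G : Subgroup (GL (Fin n) ℤ)} {q : Fin n → ℚ}
    {c : ℝ} (hc : 0 < c) (hq : ∀ x ∈ K, c * ‖x‖ ≤ ratVec q ⬝ᵥ x)
    (hG : ∀ γ ∈ G, ∀ x ∈ K, act γ.val x ∈ K) {M : ℕ} (hM : 1 ≤ M) : Lat G q (latK K M) := by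
  have hM0 : (0 : ℝ) < M := by exact_mod_cast hM
  refine ⟨fun a ha => (mul_nonneg hc.le (norm_nonneg a)).trans (hq a ha.1), ?_, fun T => ?_⟩
  · rintro γ hγ a ⟨haK, z, hz⟩
    refine ⟨hG γ hγ a haK, γ.val.mulVec z, ?_⟩
    rw [← map_smul, hz, act_intVec']
  · obtain ⟨B, hB⟩ := exists_nat_ge ((M : ℝ) * (T / c))
    have hfin : (Set.Icc (fun _ => (-(B : ℤ))) (fun _ => (B : ℤ)) : Set (Fin n → ℤ)).Finite :=
      Set.finite_Icc _ _
    refine (hfin.image (fun z => (M : ℝ)⁻¹ • intVec z)).subset ?_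
    rintro a ⟨⟨haK, z, hz⟩, haT⟩
    refine ⟨z, ?_, ?_⟩
    · have h1 : ‖a‖ ≤ T / c := by
        rw [le_div_iff₀ hc, mul_comm]
        exact (hq a haK).trans haT
      have hb : ∀ i, |(z i : ℝ)| ≤ B := by
        intro i
        have h2 : (z i : ℝ) = (M : ℝ) * a i := by
          have := congrFun hz i
          simp only [Pi.smul_apply, smul_eq_mul, intVec] at this
          exact this.symm
        rw [h2, abs_mul, abs_of_pos hM0]
        calc (M : ℝ) * |a i| ≤ M * ‖a‖ := by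
              gcongr
              exact norm_le_pi_norm a i
          _ ≤ M * (T / c) := by gcongr
          _ ≤ B := hB
      constructor
      · intro i
        have := (abs_le.1 (hb i)).1
        show -(B : ℤ) ≤ z i
        exact_mod_cast this
      · intro i
        have := (abs_le.1 (hb i)).2
        show z i ≤ (B : ℤ)
        exact_mod_cast this
    · show (M : ℝ)⁻¹ • intVec z = a
      rw [← hz, smul_smul, inv_mul_cancel₀ hM0.ne', one_smul]

/-- A common denominator. -/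
lemma exists_denom (S : Finset (Fin n → ℚ)) :
    ∃ M : ℕ, 1 ≤ M ∧ ∀ v ∈ S, ∃ z : Fin n → ℤ, (M : ℝ) • ratVec v = intVec z := by
  classical
  refine ⟨∏ v ∈ S, ∏ i, (v i).den, ?_, fun v hv => ?_⟩
  · exact Nat.one_le_iff_ne_zero.2 (Finset.prod_ne_zero_iff.2 fun v _ =>
      Finset.prod_ne_zero_iff.2 fun i _ => (v i).den_ne_zero)
  · have hdvd : ∀ i, (v i).den ∣ ∏ v ∈ S, ∏ i, (v i).den := fun i =>
      (Finset.dvd_prod_of_mem (fun i => (v i).den) (Finset.mem_univ i)).trans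
        (Finset.dvd_prod_of_mem (fun v : Fin n → ℚ => ∏ i, (v i).den) hv)
    choose k hk using hdvd
    refine ⟨fun i => k i * (v i).num, ?_⟩
    funext i
    simp only [Pi.smul_apply, smul_eq_mul, intVec, ratVec]
    rw [hk i]
    have h1 : ((v i : ℚ) : ℝ) = ((v i).num : ℝ) / ((v i).den : ℝ) := by
      conv_lhs => rw [← Rat.num_div_den (v i)]
      push_cast
      rfl
    rw [h1]
    have h2 : ((v i).den : ℝ) ≠ 0 := by exact_mod_cast (v i).den_ne_zero
    push_cast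
    field_simp

lemma ratVec_mem_hull {K : PointedCone ℝ (Fin n → ℝ)} {v : Fin n → ℚ} (hv : ratVec v ∈ K) :
    ratVec v ∈ PointedCone.hull ℝ (latK K 1) := by
  obtain ⟨M, hM, h⟩ := exists_denom {v}
  obtain ⟨z, hz⟩ := h v (Finset.mem_singleton_self v)
  have hM0 : (0 : ℝ) < M := by exact_mod_cast hM
  have h1 : (M : ℝ) • ratVec v ∈ latK K 1 :=
    ⟨PointedCone.smul_mem _ hM0.le hv, z, by rw [Nat.cast_one, one_smul, hz]⟩
  have h2 : ratVec v = (M : ℝ)⁻¹ • ((M : ℝ) • ratVec v) := by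
    rw [smul_smul, inv_mul_cancel₀ hM0.ne', one_smul]
  rw [h2]
  exact PointedCone.smul_mem _ (inv_nonneg.2 hM0.le) (Submodule.subset_span h1)

/-- A finitely generated cone on whose generators `q` is positive is closed. -/
lemma isClosed_hull (V : Finset (Fin n → ℝ)) (w : Fin n → ℝ) {c : ℝ} (hc : 0 < c)
    (hw : ∀ v ∈ V, c * ‖v‖ ≤ w ⬝ᵥ v) :
    IsClosed (PointedCone.hull ℝ (V : Set (Fin n → ℝ)) : Set (Fin n → ℝ)) := by
  classical
  -- remove zero
  have hV : (PointedCone.hull ℝ (V : Set (Fin n → ℝ)) : Set (Fin n → ℝ)) =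
      (PointedCone.hull ℝ ((V.erase 0 : Finset (Fin n → ℝ)) : Set (Fin n → ℝ)) :
        Set (Fin n → ℝ)) := by
    apply Set.Subset.antisymm
    · refine (Submodule.span_le (p := PointedCone.hull ℝ
        ((V.erase 0 : Finset (Fin n → ℝ)) : Set (Fin n → ℝ)))).2 fun v hv => ?_
      by_cases h0 : v = 0
      · rw [h0]; exact Submodule.zero_mem _
      · exact Submodule.subset_span (Finset.mem_coe.2 (Finset.mem_erase.2 ⟨h0, hv⟩))
    · exact Submodule.span_mono (fun v hv => Finset.mem_of_mem_erase hv)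
  rw [hV]
  set W := V.erase 0 with hWdef
  have hpos : ∀ v ∈ W, 0 < w ⬝ᵥ v := fun v hv =>
    lt_of_lt_of_le (mul_pos hc (norm_pos_iff.2 (Finset.ne_of_mem_erase hv)))
      (hw v (Finset.mem_of_mem_erase hv))
  have hcw : Continuous (fun x : Fin n → ℝ => w ⬝ᵥ x) := by
    unfold dotProduct; fun_prop
  refine isClosed_of_closure_subset fun x hx => ?_
  set R : ℝ := w ⬝ᵥ x + 1 with hR
  -- the compact piece
  let T : (W → ℝ) → (Fin n → ℝ) := fun t => ∑ v : W, t v • (v : Fin n → ℝ)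
  have hT : Continuous T := by
    unfold T; fun_prop
  let Q : Set (W → ℝ) := Set.Icc 0 (fun v : W => R / (w ⬝ᵥ (v : Fin n → ℝ)))
  have hQ : IsCompact (T '' Q) := isCompact_Icc.image hT
  have hsub : (PointedCone.hull ℝ (W : Set (Fin n → ℝ)) : Set (Fin n → ℝ)) ∩
      {y | w ⬝ᵥ y < R} ⊆ T '' Q := by
    rintro y ⟨hy, hyR⟩
    obtain ⟨d, hd, hyd⟩ := (mem_hullR W y).1 hy
    refine ⟨fun v => d v, ⟨fun v => hd v, fun v => ?_⟩, ?_⟩
    · show d v ≤ R / (w ⬝ᵥ (v : Fin n → ℝ))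
      rw [le_div_iff₀ (hpos v v.2)]
      refine le_trans ?_ (le_of_lt hyR)
      rw [hyd, dotProduct_sum]
      have := Finset.single_le_sum (f := fun v => w ⬝ᵥ (d v • v))
        (fun v hv => by
          rw [dotProduct_smul, smul_eq_mul]
          exact mul_nonneg (hd v) (hpos v hv).le) v.2
      rw [dotProduct_smul, smul_eq_mul] at this
      exact this
    · rw [hyd]
      exact Finset.sum_coe_sort W (fun v => d v • v)
  have hmem : x ∈ closure ((PointedCone.hull ℝ (W : Set (Fin n → ℝ)) : Set (Fin n → ℝ)) ∩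
      {y | w ⬝ᵥ y < R}) := by
    rw [mem_closure_iff_nhds] at hx ⊢
    intro t ht
    have ho : {y : Fin n → ℝ | w ⬝ᵥ y < R} ∈ 𝓝 x :=
      (isOpen_lt hcw continuous_const).mem_nhds (by
        show w ⬝ᵥ x < R
        linarith)
    obtain ⟨y, hy1, hy2⟩ := hx _ (Filter.inter_mem ht ho)
    exact ⟨y, hy1.1, hy2, hy1.2⟩
  obtain ⟨t, ht, rfl⟩ := (closure_minimal hsub hQ.isClosed) hmem
  refine Submodule.sum_mem _ fun v _ => PointedCone.smul_mem _ (ht.1 v) ?_
  exact Submodule.subset_span v.2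

/-- Rational action. -/
def ra (g : Matrix (Fin n) (Fin n) ℤ) (v : Fin n → ℚ) : Fin n → ℚ :=
  (g.map (Int.cast : ℤ → ℚ)).mulVec v

lemma ratVec_ra (g : Matrix (Fin n) (Fin n) ℤ) (x : Fin n → ℚ) :
    ratVec (ra g x) = act g (ratVec x) := by
  funext i
  show (((g.map (Int.cast : ℤ → ℚ)).mulVec x i : ℚ) : ℝ) = _
  simp [act_apply, Matrix.mulVec, dotProduct, ratVec]

lemma act_hull (g : Matrix (Fin n) (Fin n) ℤ) (X : Set (Fin n → ℝ)) {x : Fin n → ℝ}
    (hx : x ∈ PointedCone.hull ℝ X) : act g x ∈ PointedCone.hull ℝ (act g '' X) := by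
  induction hx using Submodule.span_induction with
  | mem y hy => exact Submodule.subset_span ⟨y, hy, rfl⟩
  | zero => rw [map_zero]; exact Submodule.zero_mem _
  | add y z _ _ hy hz => rw [map_add]; exact Submodule.add_mem _ hy hz
  | smul a y _ hy =>
    have : act g (a • y) = (a : ℝ) • act g y := by
      rw [← map_smul]; rfl
    rw [this]
    exact PointedCone.smul_mem _ a.2 hy

lemma mem_hull_ra (γ : GL (Fin n) ℤ) (S : Finset (Fin n → ℚ)) [DecidableEq (Fin n → ℚ)]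
    (x : Fin n → ℝ) :
    x ∈ PointedCone.hull ℝ (ratVec '' ((S.image (ra γ.val) : Finset (Fin n → ℚ)) :
      Set (Fin n → ℚ))) ↔
      ∃ y ∈ PointedCone.hull ℝ (ratVec '' (S : Set (Fin n → ℚ))), act γ.val y = x := by
  have e : ratVec '' ((S.image (ra γ.val) : Finset (Fin n → ℚ)) : Set (Fin n → ℚ)) =
      act γ.val '' (ratVec '' (S : Set (Fin n → ℚ))) := by
    ext y
    constructor
    · rintro ⟨v, hv, rfl⟩
      obtain ⟨u, hu, rfl⟩ := Finset.mem_image.1 (Finset.mem_coe.1 hv)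
      exact ⟨ratVec u, ⟨u, hu, rfl⟩, (ratVec_ra _ _).symm⟩
    · rintro ⟨_, ⟨u, hu, rfl⟩, rfl⟩
      exact ⟨ra γ.val u, Finset.mem_coe.2 (Finset.mem_image_of_mem _ hu), ratVec_ra _ _⟩
  rw [e]
  constructor
  · intro hx
    refine ⟨act (γ⁻¹ : GL (Fin n) ℤ).val x, ?_, act_inv_val γ x⟩
    have h1 := act_hull (γ⁻¹ : GL (Fin n) ℤ).val _ hx
    rw [Set.image_image] at h1
    have h2 : (fun x => act (γ⁻¹ : GL (Fin n) ℤ).val (act γ.val x)) '' (ratVec ''
        (S : Set (Fin n → ℚ))) = ratVec '' (S : Set (Fin n → ℚ)) := by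
      have : (fun x => act (γ⁻¹ : GL (Fin n) ℤ).val (act γ.val x)) = id := by
        funext y; exact act_val_inv γ y
      rw [this, Set.image_id]
    rwa [h2] at h1
  · rintro ⟨y, hy, rfl⟩
    exact act_hull _ _ hy

/-- Cutting a rational polyhedral cone with finitely many rational half-spaces. -/
lemma mw_list (S : Finset (Fin n → ℚ)) (L : List (Fin n → ℚ)) :
    ∃ S' : Finset (Fin n → ℚ), ∀ x : Fin n → ℝ,
      x ∈ PointedCone.hull ℝ (ratVec '' (S' : Set (Fin n → ℚ))) ↔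
      x ∈ PointedCone.hull ℝ (ratVec '' (S : Set (Fin n → ℚ))) ∧
        ∀ w ∈ L, 0 ≤ ratVec w ⬝ᵥ x := by
  induction L with
  | nil => exact ⟨S, fun x => by simp⟩
  | cons w L ih =>
    obtain ⟨S₁, hS₁⟩ := ih
    obtain ⟨S₂, hS₂⟩ := mw_step S₁ w
    refine ⟨S₂, fun x => ?_⟩
    rw [hS₂ x, hS₁ x]
    simp only [List.mem_cons, forall_eq_or_imp]
    tauto

end Pool.Agent.H55.Cone
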