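import Pool.Agent.H93Cone.Domain

/-!
Groups of integer matrices preserving a closed salient cone: minima of a positive functional on
orbits, and the finiteness lemma for cones generated by finitely many lattice vectors.
-/

set_option autoImplicit false

namespace Pool.Agent.H55.Cone

open Finset Pool.Agent.H93Cone

variable {n : ℕ}

lemma mem_hullR (V : Finset (Fin n → ℝ)) (x : Fin n → ℝ) :
    x ∈ PointedCone.hull ℝ (V : Set (Fin n → ℝ)) ↔
      ∃ c : (Fin n → ℝ) → ℝ, (∀ s, 0 ≤ c s) ∧ x = ∑ s ∈ V, c s • s := by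
  classical
  constructor
  · intro hx
    induction hx using Submodule.span_induction with
    | mem y hy =>
      refine ⟨fun t => if t = y then 1 else 0, fun t => by dsimp only; split_ifs <;> norm_num, ?_⟩
      rw [Finset.sum_eq_single y]
      · simp
      · intro b _ hb; simp [hb]
      · intro h; exact absurd hy h
    | zero => exact ⟨fun _ => 0, fun _ => le_rfl, by simp⟩
    | add y z _ _ hy hz =>
      obtain ⟨c, hc, rfl⟩ := hy
      obtain ⟨d, hd, rfl⟩ := hz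
      refine ⟨fun s => c s + d s, fun s => add_nonneg (hc s) (hd s), ?_⟩
      rw [← Finset.sum_add_distrib]
      exact Finset.sum_congr rfl fun s _ => by rw [add_smul]
    | smul a y _ hy =>
      obtain ⟨c, hc, rfl⟩ := hy
      refine ⟨fun s => (a : ℝ) * c s, fun s => mul_nonneg a.2 (hc s), ?_⟩
      rw [Finset.smul_sum]
      exact Finset.sum_congr rfl fun s _ => by rw [mul_smul]; rfl
  · rintro ⟨c, hc, rfl⟩
    refine Submodule.sum_mem _ fun s hs => ?_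
    exact PointedCone.smul_mem _ (hc s) (Submodule.subset_span hs)

/-- A set of vectors on which `q` is nonnegative and has finite sublevel sets, preserved
by `G`. -/
structure Lat (G : Subgroup (GL (Fin n) ℤ)) (q : Fin n → ℚ) (A : Set (Fin n → ℝ)) : Prop where
  nonneg : ∀ a ∈ A, 0 ≤ ratVec q ⬝ᵥ a
  inv : ∀ γ ∈ G, ∀ a ∈ A, act γ.val a ∈ A
  fin : ∀ T : ℝ, {a | a ∈ A ∧ ratVec q ⬝ᵥ a ≤ T}.Finite

variable {G : Subgroup (GL (Fin n) ℤ)} {q : Fin n → ℚ} {A : Set (Fin n → ℝ)}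

lemma dot_sum (V : Finset (Fin n → ℝ)) (c : (Fin n → ℝ) → ℝ) (g : Matrix (Fin n) (Fin n) ℤ)
    (w : Fin n → ℝ) :
    w ⬝ᵥ act g (∑ s ∈ V, c s • s) = ∑ s ∈ V, c s * (w ⬝ᵥ act g s) := by
  rw [map_sum, dotProduct_sum]
  refine Finset.sum_congr rfl fun s _ => ?_
  rw [map_smul, dotProduct_smul, smul_eq_mul]

/-- The functional attains its minimum on the orbit of a vector of the cone spanned by `A`. -/
lemma exists_min (h : Lat G q A) {x : Fin n → ℝ} (hx : x ∈ PointedCone.hull ℝ A) :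
    ∃ γ₀ ∈ G, ∀ γ ∈ G, ratVec q ⬝ᵥ act γ₀.val x ≤ ratVec q ⬝ᵥ act γ.val x := by
  classical
  obtain ⟨V, hVA, hxV⟩ := Submodule.mem_span_finite_of_mem_span hx
  obtain ⟨c, hc, hxc⟩ := (mem_hullR V x).1 hxV
  set W : Finset (Fin n → ℝ) := V.filter (fun v => 0 < c v) with hW
  have hxW : x = ∑ s ∈ W, c s • s := by
    rw [hxc]
    symm
    refine Finset.sum_subset (Finset.filter_subset _ _) fun v hv hvW => ?_
    have : c v = 0 := by
      by_contra h0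
      exact hvW (Finset.mem_filter.2 ⟨hv, lt_of_le_of_ne (hc v) (Ne.symm h0)⟩)
    rw [this, zero_smul]
  have hWA : ∀ w ∈ W, w ∈ A := fun w hw => hVA (Finset.mem_filter.1 hw).1
  have hcpos : ∀ w ∈ W, 0 < c w := fun w hw => (Finset.mem_filter.1 hw).2
  set R : ℝ := ratVec q ⬝ᵥ x with hR
  -- tuples
  let Φ : GL (Fin n) ℤ → (W → (Fin n → ℝ)) := fun γ w => act γ.val (w : Fin n → ℝ)
  let Ψ : (W → (Fin n → ℝ)) → ℝ := fun t => ∑ w : W, c w * (ratVec q ⬝ᵥ t w)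
  have hΨ : ∀ γ : GL (Fin n) ℤ, Ψ (Φ γ) = ratVec q ⬝ᵥ act γ.val x := by
    intro γ
    rw [hxW, dot_sum]
    exact Finset.sum_coe_sort W (fun w => c w * (ratVec q ⬝ᵥ act γ.val w))
  set B : Set (GL (Fin n) ℤ) := {γ | γ ∈ G ∧ ratVec q ⬝ᵥ act γ.val x ≤ R} with hB
  have hfin : (Φ '' B).Finite := by
    have hpi : (Set.pi Set.univ (fun w : W =>
        {a | a ∈ A ∧ ratVec q ⬝ᵥ a ≤ R / c w})).Finite := Set.Finite.pi' (fun w => h.fin _) |>.subset
          (fun t ht w => ht w (Set.mem_univ _))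
    refine hpi.subset ?_
    rintro _ ⟨γ, ⟨hγ, hγR⟩, rfl⟩ w _
    refine ⟨h.inv γ hγ _ (hWA w w.2), ?_⟩
    rw [le_div_iff₀ (hcpos w w.2), mul_comm]
    refine le_trans ?_ hγR
    rw [hxW, dot_sum]
    exact Finset.single_le_sum (f := fun w => c w * (ratVec q ⬝ᵥ act γ.val w))
      (fun w hw => mul_nonneg (hc w) (h.nonneg _ (h.inv γ hγ _ (hWA w hw)))) w.2
  have hne : (Φ '' B).Nonempty := ⟨Φ 1, 1, ⟨G.one_mem, by simp [hR]⟩, rfl⟩
  obtain ⟨t, ⟨γ₀, hγ₀, rfl⟩, hmin⟩ := Set.exists_min_image _ Ψ hfin hne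
  refine ⟨γ₀, hγ₀.1, fun γ hγ => ?_⟩
  by_cases hle : ratVec q ⬝ᵥ act γ.val x ≤ R
  · have := hmin (Φ γ) ⟨γ, ⟨hγ, hle⟩, rfl⟩
    rwa [hΨ, hΨ] at this
  · push Not at hle
    exact hγ₀.2.trans hle.le

/-- The lexicographic finiteness lemma. -/
lemma lex (h : Lat G q A) (B : Finset (Fin n → ℝ)) :
    (∀ b ∈ B, b ∈ A) → ∀ (U : Submodule ℝ (Fin n → ℝ)), ∀ γ₀ ∈ G,
    ∃ F : Set (GL (Fin n) ℤ), F.Finite ∧ F ⊆ G ∧
      ∀ γ ∈ G, (∀ u ∈ U, act γ.val u = act γ₀.val u) → ∀ u ∈ U,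
        ∀ c : (Fin n → ℝ) → ℝ, (∀ b, 0 ≤ c b) →
        (∀ γ' ∈ G, ratVec q ⬝ᵥ act γ.val (u + ∑ b ∈ B, c b • b) ≤
          ratVec q ⬝ᵥ act γ'.val (u + ∑ b ∈ B, c b • b)) →
        ∃ γ' ∈ F, act γ'.val (u + ∑ b ∈ B, c b • b) = act γ.val (u + ∑ b ∈ B, c b • b) := by
  classical
  induction B using Finset.strongInduction with
  | H B IH =>
  intro hB U γ₀ hγ₀
  set T : ℝ := ∑ b ∈ B, ratVec q ⬝ᵥ act γ₀.val b with hT
  have key : ∀ (b : Fin n → ℝ) (w : Fin n → ℝ), ∃ F : Set (GL (Fin n) ℤ), F.Finite ∧ F ⊆ G ∧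
      (b ∈ B → ∀ γ ∈ G, (∀ u ∈ U, act γ.val u = act γ₀.val u) → act γ.val b = w → ∀ u ∈ U,
        ∀ c : (Fin n → ℝ) → ℝ, (∀ b, 0 ≤ c b) →
        (∀ γ' ∈ G, ratVec q ⬝ᵥ act γ.val (u + ∑ b ∈ B, c b • b) ≤
          ratVec q ⬝ᵥ act γ'.val (u + ∑ b ∈ B, c b • b)) →
        ∃ γ' ∈ F, act γ'.val (u + ∑ b ∈ B, c b • b) = act γ.val (u + ∑ b ∈ B, c b • b)) := by
    intro b w
    by_cases hex : b ∈ B ∧ ∃ γ₁ ∈ G, (∀ u ∈ U, act γ₁.val u = act γ₀.val u) ∧ act γ₁.val b = w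
    · obtain ⟨hb, γ₁, hγ₁, h1, h2⟩ := hex
      obtain ⟨F, hF1, hF2, hF3⟩ := IH (B.erase b) (Finset.erase_ssubset hb)
        (fun b' hb' => hB b' (Finset.mem_of_mem_erase hb')) (U ⊔ Submodule.span ℝ {b}) γ₁ hγ₁
      refine ⟨F, hF1, hF2, fun _ γ hγ hU hw u hu c hc hmin => ?_⟩
      have hagree : ∀ v ∈ U ⊔ Submodule.span ℝ {b}, act γ.val v = act γ₁.val v := by
        have hle : U ⊔ Submodule.span ℝ {b} ≤ LinearMap.eqLocus (act γ.val) (act γ₁.val) := by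
          refine sup_le (fun v hv => ?_) ?_
          · show act γ.val v = act γ₁.val v
            rw [hU v hv, h1 v hv]
          · rw [Submodule.span_singleton_le_iff_mem]
            show act γ.val b = act γ₁.val b
            rw [hw, h2]
        exact fun v hv => hle hv
      have hsum : u + ∑ b ∈ B, c b • b = (u + c b • b) + ∑ b ∈ B.erase b, c b • b := by
        rw [← Finset.add_sum_erase B (fun b => c b • b) hb, add_assoc]
      rw [hsum] at hmin ⊢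
      exact hF3 γ hγ hagree _ (Submodule.add_mem_sup hu
        (Submodule.smul_mem _ _ (Submodule.mem_span_singleton_self b))) c hc hmin
    · refine ⟨∅, Set.finite_empty, Set.empty_subset _, fun hb γ hγ hU hw => ?_⟩
      exact absurd ⟨hb, γ, hγ, hU, hw⟩ hex
  choose F hF1 hF2 hF3 using key
  refine ⟨{γ₀} ∪ ⋃ b ∈ B, ⋃ w ∈ {a | a ∈ A ∧ ratVec q ⬝ᵥ a ≤ T}, F b w, ?_, ?_, ?_⟩
  · refine (Set.finite_singleton _).union ?_
    refine Set.Finite.biUnion (Finset.finite_toSet B) fun b _ => ?_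
    exact Set.Finite.biUnion (h.fin T) fun w _ => hF1 b w
  · refine Set.union_subset (Set.singleton_subset_iff.2 hγ₀) ?_
    exact Set.iUnion₂_subset fun b _ => Set.iUnion₂_subset fun w _ => hF2 b w
  · intro γ hγ hU u hu c hc hmin
    by_cases hz : ∀ b ∈ B, c b = 0
    · refine ⟨γ₀, Or.inl rfl, ?_⟩
      have hs : ∑ b ∈ B, c b • b = 0 := Finset.sum_eq_zero fun b hb => by rw [hz b hb, zero_smul]
      rw [hs, add_zero, hU u hu]
    · push Not at hz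
      obtain ⟨b₁, hb₁, hb₁c⟩ := hz
      obtain ⟨b, hb, hbmax⟩ := B.exists_max_image c ⟨b₁, hb₁⟩
      have hcb : 0 < c b := lt_of_lt_of_le (lt_of_le_of_ne (hc b₁) (Ne.symm hb₁c)) (hbmax b₁ hb₁)
      have h1 := hmin γ₀ hγ₀
      rw [map_add, map_add, dotProduct_add, dotProduct_add, hU u hu, dot_sum, dot_sum] at h1
      have h2 : c b * (ratVec q ⬝ᵥ act γ.val b) ≤ ∑ s ∈ B, c s * (ratVec q ⬝ᵥ act γ.val s) :=
        Finset.single_le_sum (f := fun w => c w * (ratVec q ⬝ᵥ act γ.val w))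
          (fun w hw => mul_nonneg (hc w) (h.nonneg _ (h.inv γ hγ _ (hB w hw)))) hb
      have h3 : ∑ s ∈ B, c s * (ratVec q ⬝ᵥ act γ₀.val s) ≤ c b * T := by
        rw [hT, Finset.mul_sum]
        exact Finset.sum_le_sum fun s hs => mul_le_mul_of_nonneg_right (hbmax s hs)
          (h.nonneg _ (h.inv γ₀ hγ₀ _ (hB s hs)))
      have h4 : ratVec q ⬝ᵥ act γ.val b ≤ T := by
        have : c b * (ratVec q ⬝ᵥ act γ.val b) ≤ c b * T := by linarith
        exact le_of_mul_le_mul_left this hcb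
      obtain ⟨γ', hγ', he⟩ := hF3 b (act γ.val b) hb γ hγ hU rfl u hu c hc hmin
      refine ⟨γ', Or.inr ?_, he⟩
      simp only [Set.mem_iUnion]
      exact ⟨b, hb, act γ.val b, ⟨h.inv γ hγ _ (hB b hb), h4⟩, hγ'⟩

/-- A cone generated by finitely many elements of `A` needs only finitely many group elements to
realise the minima of `q` on orbits. -/
lemma finite_min (h : Lat G q A) (B : Finset (Fin n → ℝ)) (hB : ∀ b ∈ B, b ∈ A) :
    ∃ F : Set (GL (Fin n) ℤ), F.Finite ∧ F ⊆ G ∧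
      ∀ γ ∈ G, ∀ x ∈ PointedCone.hull ℝ (B : Set (Fin n → ℝ)),
        (∀ γ' ∈ G, ratVec q ⬝ᵥ act γ.val x ≤ ratVec q ⬝ᵥ act γ'.val x) →
        ∃ γ' ∈ F, act γ'.val x = act γ.val x := by
  obtain ⟨F, h1, h2, h3⟩ := lex h B hB ⊥ 1 G.one_mem
  refine ⟨F, h1, h2, fun γ hγ x hx hmin => ?_⟩
  obtain ⟨c, hc, rfl⟩ := (mem_hullR B x).1 hx
  have := h3 γ hγ (by
    intro u hu
    rw [(Submodule.mem_bot ℝ).1 hu, map_zero, map_zero]) 0 (Submodule.zero_mem _) c hc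
  rw [zero_add] at this
  exact this hmin

end Pool.Agent.H55.Cone
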