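import Pool.Agent.H55.Cone.Dom

/-!
The main theorem: if the translates of a rational polyhedral cone in `N` cover the interior of `N`
then they cover all points of `N` in the cone spanned by the lattice points of the bigger salient
cone `K`, and there is an exact rational polyhedral fundamental domain.
-/

set_option autoImplicit false

namespace Pool.Agent.H55.Cone

open Finset Filter Topology Pool.Agent.H93Cone

variable {n : ℕ}

lemma continuous_dot' (p : Fin n → ℝ) : Continuous (fun x : Fin n → ℝ => p ⬝ᵥ x) := by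
  unfold dotProduct; fun_prop

theorem domain (K N : PointedCone ℝ (Fin n → ℝ)) (hKcl : IsClosed (K : Set (Fin n → ℝ)))
    (hKsal : ∀ x, x ∈ K → -x ∈ K → x = 0)
    (hNK : N ≤ K) (hint : (interior (N : Set (Fin n → ℝ))).Nonempty)
    (G : Subgroup (GL (Fin n) ℤ)) (hGK : ∀ γ ∈ G, ∀ x ∈ K, act γ.val x ∈ K)
    (hGN : ∀ γ ∈ G, ∀ x ∈ N, act γ.val x ∈ N)
    (hintK : ∀ x ∈ interior (N : Set (Fin n → ℝ)), x ∈ PointedCone.hull ℝ (latK K 1))
    (S₀ : Finset (Fin n → ℚ)) (hS₀ : PointedCone.hull ℝ (ratVec '' (S₀ : Set (Fin n → ℚ))) ≤ N)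
    (hcov : ∀ x ∈ interior (N : Set (Fin n → ℝ)), ∃ γ ∈ G,
      ∃ y ∈ PointedCone.hull ℝ (ratVec '' (S₀ : Set (Fin n → ℚ))), act γ.val y = x) :
    ∃ S : Finset (Fin n → ℚ),
      (∀ y ∈ PointedCone.hull ℝ (ratVec '' (S : Set (Fin n → ℚ))), y ∈ N) ∧
      (∀ x ∈ N, x ∈ PointedCone.hull ℝ (latK K 1) → ∃ γ ∈ G,
        ∃ y ∈ PointedCone.hull ℝ (ratVec '' (S : Set (Fin n → ℚ))), act γ.val y = x) ∧
      (∀ y ∈ PointedCone.hull ℝ (ratVec '' (S : Set (Fin n → ℚ))), ∃ γ ∈ G,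
        ∃ z ∈ PointedCone.hull ℝ (ratVec '' (S₀ : Set (Fin n → ℚ))), act γ.val z = y) ∧
      (∀ γ ∈ G, γ ≠ 1 → Disjoint
        (interior (PointedCone.hull ℝ (ratVec '' (S : Set (Fin n → ℚ))) : Set (Fin n → ℝ)))
        (interior (act γ.val ''
          (PointedCone.hull ℝ (ratVec '' (S : Set (Fin n → ℚ))) : Set (Fin n → ℝ))))) := by
  classical
  obtain ⟨q, c, hc, hq⟩ := exists_pos_rat K hKcl hKsal
  have hval : Function.Injective (fun γ : GL (Fin n) ℤ => γ.val) := Units.val_injective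
  -- the stabiliser of the functional is finite
  obtain ⟨x₀, hx₀⟩ := hint
  obtain ⟨ε₀, hε₀, hball⟩ : ∃ ε > 0, Metric.closedBall x₀ ε ⊆ (K : Set (Fin n → ℝ)) := by
    obtain ⟨ε, hε, h⟩ := Metric.nhds_basis_closedBall.mem_iff.1 (isOpen_interior.mem_nhds hx₀)
    exact ⟨ε, hε, h.trans (interior_subset.trans hNK)⟩
  have hHfin : {γ : GL (Fin n) ℤ | γ ∈ G ∧ lq γ.val q = q}.Finite := by
    refine Set.Finite.of_finite_image (f := fun γ : GL (Fin n) ℤ => γ.val)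
      ((finite_matrices K q hc hε₀ hq (ratVec q ⬝ᵥ x₀)).subset ?_) hval.injOn
    rintro _ ⟨γ, ⟨hγ, hst⟩, rfl⟩
    exact ⟨hGK γ hγ, x₀, hball, by
      show ratVec q ⬝ᵥ act γ.val x₀ ≤ _
      rw [← dot_lq, hst]⟩
  set H : Finset (GL (Fin n) ℤ) := hHfin.toFinset with hH
  have hmemH : ∀ γ, γ ∈ H ↔ γ ∈ G ∧ lq γ.val q = q := fun γ => by
    rw [hH, Set.Finite.mem_toFinset]; rfl
  obtain ⟨p, hp⟩ := exists_free_functional ((H.erase 1).image (fun γ : GL (Fin n) ℤ => γ.val)) (by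
    intro g hg h1
    obtain ⟨γ, hγ, rfl⟩ := Finset.mem_image.1 hg
    exact (Finset.mem_erase.1 hγ).1 (hval h1))
  -- the full domain
  let Dom : PointedCone ℝ (Fin n → ℝ) :=
    { carrier := {x | x ∈ N ∧ (∀ γ ∈ G, ratVec q ⬝ᵥ x ≤ ratVec q ⬝ᵥ act γ.val x) ∧
        ∀ γ ∈ H, ratVec p ⬝ᵥ x ≤ ratVec p ⬝ᵥ act γ.val x}
      zero_mem' := ⟨Submodule.zero_mem _, fun γ _ => by simp, fun γ _ => by simp⟩
      add_mem' := by
        rintro x y ⟨hx1, hx2, hx3⟩ ⟨hy1, hy2, hy3⟩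
        refine ⟨Submodule.add_mem _ hx1 hy1, fun γ hγ => ?_, fun γ hγ => ?_⟩
        · rw [map_add, dotProduct_add, dotProduct_add]
          exact add_le_add (hx2 γ hγ) (hy2 γ hγ)
        · rw [map_add, dotProduct_add, dotProduct_add]
          exact add_le_add (hx3 γ hγ) (hy3 γ hγ)
      smul_mem' := by
        rintro ⟨t, ht⟩ x ⟨hx1, hx2, hx3⟩
        have e : (⟨t, ht⟩ : {t : ℝ // 0 ≤ t}) • x = t • x := rfl
        refine ⟨PointedCone.smul_mem _ ht hx1, fun γ hγ => ?_, fun γ hγ => ?_⟩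
        · rw [e, map_smul, dotProduct_smul, dotProduct_smul, smul_eq_mul, smul_eq_mul]
          exact mul_le_mul_of_nonneg_left (hx2 γ hγ) ht
        · rw [e, map_smul, dotProduct_smul, dotProduct_smul, smul_eq_mul, smul_eq_mul]
          exact mul_le_mul_of_nonneg_left (hx3 γ hγ) ht }
  have hDomMem : ∀ x, x ∈ Dom ↔ x ∈ N ∧ (∀ γ ∈ G, ratVec q ⬝ᵥ x ≤ ratVec q ⬝ᵥ act γ.val x) ∧
        ∀ γ ∈ H, ratVec p ⬝ᵥ x ≤ ratVec p ⬝ᵥ act γ.val x := fun x => Iff.rfl
  -- covering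
  have hcover : ∀ x ∈ N, x ∈ PointedCone.hull ℝ (latK K 1) → ∃ γ ∈ G, ∃ y ∈ Dom,
      act γ.val y = x := by
    intro x hx hxK
    obtain ⟨γ₀, hγ₀, hmin⟩ := exists_min (lat_latK hc hq hGK le_rfl) hxK
    have hHne : H.Nonempty := ⟨1, (hmemH 1).2 ⟨G.one_mem, by simp [lq]⟩⟩
    obtain ⟨η, hη, hηmin⟩ := H.exists_min_image (fun η : GL (Fin n) ℤ =>
      ratVec p ⬝ᵥ act η.val (act γ₀.val x)) hHne
    obtain ⟨hηG, hηst⟩ := (hmemH η).1 hη
    have hy : act (η * γ₀).val x = act η.val (act γ₀.val x) := by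
      rw [Units.val_mul, act_mul_apply]
    have hqy : ratVec q ⬝ᵥ act (η * γ₀).val x = ratVec q ⬝ᵥ act γ₀.val x := by
      rw [hy, ← dot_lq, hηst]
    refine ⟨(η * γ₀)⁻¹, G.inv_mem (G.mul_mem hηG hγ₀), act (η * γ₀).val x, ⟨?_, ?_, ?_⟩,
      act_val_inv _ _⟩
    · exact hGN _ (G.mul_mem hηG hγ₀) _ hx
    · intro γ hγ
      rw [hqy, ← act_mul_apply, ← Units.val_mul]
      exact hmin _ (G.mul_mem hγ (G.mul_mem hηG hγ₀))
    · intro γ hγ
      obtain ⟨hγG, hγst⟩ := (hmemH γ).1 hγ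
      have h1 : γ * η ∈ H := by
        refine (hmemH _).2 ⟨G.mul_mem hγG hηG, ?_⟩
        apply ratVec_injective
        rw [ratVec_lq, Units.val_mul, lr_mul, ← ratVec_lq, hγst, ← ratVec_lq, hηst]
      have h2 := hηmin _ h1
      rw [Units.val_mul, act_mul_apply] at h2
      rw [hy]
      exact h2
  -- integrality of the given cone
  obtain ⟨M, hM, hMS⟩ := exists_denom S₀
  set B : Finset (Fin n → ℝ) := S₀.image ratVec with hB
  have hBcoe : (B : Set (Fin n → ℝ)) = ratVec '' (S₀ : Set (Fin n → ℚ)) := by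
    rw [hB, Finset.coe_image]
  have hBN : ∀ b ∈ B, b ∈ N := by
    intro b hb
    obtain ⟨v, hv, rfl⟩ := Finset.mem_image.1 hb
    exact hS₀ (Submodule.subset_span ⟨v, hv, rfl⟩)
  have hBlat : ∀ b ∈ B, b ∈ latK K M := by
    intro b hb
    refine ⟨hNK (hBN b hb), ?_⟩
    obtain ⟨v, hv, rfl⟩ := Finset.mem_image.1 hb
    exact hMS v hv
  have hlatM := lat_latK (G := G) hc hq hGK hM
  obtain ⟨F, hFfin, hFG, hF⟩ := finite_min hlatM B hBlat
  have hhullM : ∀ x ∈ PointedCone.hull ℝ (B : Set (Fin n → ℝ)),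
      x ∈ PointedCone.hull ℝ (latK K M) := fun x hx =>
    Submodule.span_mono (fun b hb => hBlat b hb) hx
  rw [← hBcoe] at hcov hS₀
  have hclosedB : IsClosed (PointedCone.hull ℝ (B : Set (Fin n → ℝ)) : Set (Fin n → ℝ)) :=
    isClosed_hull B (ratVec q) hc (fun v hv => hq v (hNK (hBN v hv)))
  -- the domain is contained in a finite union
  have hunion : ∀ y ∈ Dom, ∃ γ ∈ F, ∃ z ∈ PointedCone.hull ℝ (B : Set (Fin n → ℝ)),
      act γ.val z = y := by
    set X : Set (Fin n → ℝ) := ⋃ γ ∈ F, (act (γ⁻¹ : GL (Fin n) ℤ).val) ⁻¹'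
      (PointedCone.hull ℝ (B : Set (Fin n → ℝ)) : Set (Fin n → ℝ)) with hX
    have hXcl : IsClosed X := hFfin.isClosed_biUnion fun γ _ =>
      hclosedB.preimage (act_continuous _)
    have hXmem : ∀ y, y ∈ X → ∃ γ ∈ F, ∃ z ∈ PointedCone.hull ℝ (B : Set (Fin n → ℝ)),
        act γ.val z = y := by
      intro y hy
      obtain ⟨γ, hγ, hz⟩ := Set.mem_iUnion₂.1 hy
      exact ⟨γ, hγ, _, hz, act_inv_val γ y⟩
    have hint1 : ∀ y ∈ Dom, y ∈ interior (N : Set (Fin n → ℝ)) → y ∈ X := by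
      intro y hy hyi
      obtain ⟨γ, hγ, z, hz, hzy⟩ := hcov y hyi
      have hmin : ∀ γ' ∈ G, ratVec q ⬝ᵥ act γ.val z ≤ ratVec q ⬝ᵥ act γ'.val z := by
        intro γ' hγ'
        have h1 := ((hDomMem y).1 hy).2.1 (γ' * γ⁻¹) (G.mul_mem hγ' (G.inv_mem hγ))
        rw [Units.val_mul, act_mul_apply, ← hzy, act_val_inv] at h1
        exact h1
      obtain ⟨γ', hγ', he⟩ := hF γ hγ z hz hmin
      refine Set.mem_iUnion₂.2 ⟨γ', hγ', ?_⟩
      show act (γ'⁻¹ : GL (Fin n) ℤ).val y ∈ PointedCone.hull ℝ (B : Set (Fin n → ℝ))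
      rw [← hzy, ← he, act_val_inv]
      exact hz
    -- an interior point of the domain
    obtain ⟨γ₁, hγ₁, x₁, hx₁, hx₁e⟩ := hcover x₀ (interior_subset hx₀) (hintK x₀ hx₀)
    have hx₁i : x₁ ∈ interior (N : Set (Fin n → ℝ)) := by
      have hopen : IsOpen ((fun y => act γ₁.val y) ⁻¹' (interior (N : Set (Fin n → ℝ)))) :=
        isOpen_interior.preimage (act_continuous _)
      refine mem_interior.2 ⟨_, ?_, hopen, ?_⟩
      · intro y hy
        have h1 : act γ₁.val y ∈ N := interior_subset hy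
        have h2 := hGN _ (G.inv_mem hγ₁) _ h1
        rwa [act_val_inv] at h2
      · show act γ₁.val x₁ ∈ interior (N : Set (Fin n → ℝ))
        rw [hx₁e]; exact hx₀
    intro y hy
    apply hXmem
    -- the segment
    have hlim : Tendsto (fun t : ℝ => y + t • x₁) (𝓝[>] 0) (𝓝 y) := by
      have h1 : Tendsto (fun t : ℝ => y + t • x₁) (𝓝[>] 0) (𝓝 (y + (0 : ℝ) • x₁)) := by
        refine Tendsto.mono_left ?_ nhdsWithin_le_nhds
        exact (continuous_const.add (continuous_id.smul continuous_const)).tendsto 0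
      rwa [zero_smul, add_zero] at h1
    refine hXcl.mem_of_tendsto hlim ?_
    filter_upwards [self_mem_nhdsWithin] with t ht
    have ht0 : (0 : ℝ) < t := ht
    refine hint1 _ (Submodule.add_mem _ hy (PointedCone.smul_mem _ ht0.le hx₁)) ?_
    -- `y + t x₁` is interior
    have hopen : IsOpen ((fun w : Fin n → ℝ => t⁻¹ • (w - y)) ⁻¹'
        (interior (N : Set (Fin n → ℝ)))) := by
      refine isOpen_interior.preimage ?_
      fun_prop
    refine mem_interior.2 ⟨_, ?_, hopen, ?_⟩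
    · intro w hw
      have h1 : t⁻¹ • (w - y) ∈ N := interior_subset hw
      have h2 : t • (t⁻¹ • (w - y)) ∈ N := PointedCone.smul_mem _ ht0.le h1
      rw [smul_smul, mul_inv_cancel₀ ht0.ne', one_smul] at h2
      have h3 := Submodule.add_mem _ h2 ((hDomMem y).1 hy).1
      rwa [sub_add_cancel] at h3
    · show t⁻¹ • (y + t • x₁ - y) ∈ interior (N : Set (Fin n → ℝ))
      rw [add_sub_cancel_left, smul_smul, inv_mul_cancel₀ ht0.ne', one_smul]
      exact hx₁i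
  -- polyhedrality of the pieces
  have hpiece : ∀ γ ∈ F, ∃ S' : Finset (Fin n → ℚ), ∀ x,
      x ∈ PointedCone.hull ℝ (ratVec '' (S' : Set (Fin n → ℚ))) ↔
        x ∈ Dom ∧ ∃ z ∈ PointedCone.hull ℝ (B : Set (Fin n → ℝ)), act γ.val z = x := by
    intro γ hγF
    have hγ : γ ∈ G := hFG hγF
    obtain ⟨S', hS'⟩ := mw_list (S₀.image (ra γ.val))
      ((hFfin.toFinset.toList.map (fun γ' : GL (Fin n) ℤ => lq (γ' * γ⁻¹).val q - q)) ++
        (H.toList.map (fun η : GL (Fin n) ℤ => lq η.val p - p)))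
    refine ⟨S', fun x => ?_⟩
    rw [hS' x, mem_hull_ra, ← hBcoe]
    have hrw : ∀ (γ : GL (Fin n) ℤ) (w : Fin n → ℚ),
        0 ≤ ratVec (lq γ.val w - w) ⬝ᵥ x ↔ ratVec w ⬝ᵥ x ≤ ratVec w ⬝ᵥ act γ.val x := by
      intro γ w
      rw [ratVec_sub, sub_dotProduct, dot_lq, sub_nonneg]
    constructor
    · rintro ⟨⟨z, hz, hzx⟩, hL⟩
      refine ⟨⟨?_, fun γ'' hγ'' => ?_, fun η hη => ?_⟩, z, hz, hzx⟩
      · rw [← hzx]; exact hGN γ hγ z (hS₀ hz)
      · obtain ⟨γ₀, hγ₀, hmin⟩ := exists_min hlatM (hhullM z hz)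
        obtain ⟨γ', hγ', he⟩ := hF γ₀ hγ₀ z hz hmin
        have h1 := (hrw (γ' * γ⁻¹) q).1 (hL _ (List.mem_append.2 (Or.inl
          (List.mem_map.2 ⟨γ', by simpa using hγ', rfl⟩))))
        rw [Units.val_mul, act_mul_apply] at h1
        have h2 : act (γ⁻¹ : GL (Fin n) ℤ).val x = z := by rw [← hzx, act_val_inv]
        rw [h2, he] at h1
        refine h1.trans ?_
        have h3 := hmin (γ'' * γ) (G.mul_mem hγ'' hγ)
        rw [Units.val_mul, act_mul_apply, hzx] at h3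
        exact h3
      · exact (hrw η p).1 (hL _ (List.mem_append.2 (Or.inr
          (List.mem_map.2 ⟨η, by simpa using hη, rfl⟩))))
    · rintro ⟨⟨hx1, hx2, hx3⟩, z, hz, hzx⟩
      refine ⟨⟨z, hz, hzx⟩, fun w hw => ?_⟩
      rcases List.mem_append.1 hw with hw | hw
      · obtain ⟨γ', hγ', rfl⟩ := List.mem_map.1 hw
        have hγ'F : γ' ∈ F := by simpa using hγ'
        exact (hrw (γ' * γ⁻¹) q).2 (hx2 _ (G.mul_mem (hFG hγ'F) (G.inv_mem hγ)))
      · obtain ⟨η, hη, rfl⟩ := List.mem_map.1 hw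
        exact (hrw η p).2 (hx3 η (by simpa using hη))
  choose! Sp hSp using hpiece
  set S : Finset (Fin n → ℚ) := hFfin.toFinset.biUnion Sp with hS
  have hSDom : ∀ x, x ∈ PointedCone.hull ℝ (ratVec '' (S : Set (Fin n → ℚ))) ↔ x ∈ Dom := by
    intro x
    constructor
    · intro hx
      have hle : PointedCone.hull ℝ (ratVec '' (S : Set (Fin n → ℚ))) ≤ Dom := by
        refine Submodule.span_le.2 ?_
        rintro _ ⟨v, hv, rfl⟩
        obtain ⟨γ, hγ, hvγ⟩ := Finset.mem_biUnion.1 (Finset.mem_coe.1 hv)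
        have hγF : γ ∈ F := by simpa using hγ
        exact ((hSp γ hγF (ratVec v)).1 (Submodule.subset_span ⟨v, hvγ, rfl⟩)).1
      exact hle hx
    · intro hx
      obtain ⟨γ, hγ, z, hz, hzx⟩ := hunion x hx
      have h1 := (hSp γ hγ x).2 ⟨hx, z, hz, hzx⟩
      refine Submodule.span_mono ?_ h1
      refine Set.image_mono ?_
      intro v hv
      exact Finset.mem_coe.2 (Finset.mem_biUnion.2 ⟨γ, by simpa using hγ, hv⟩)
  refine ⟨S, fun y hy => ((hSDom y).1 hy).1, fun x hx hxK => ?_, fun y hy => ?_,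
    fun γ hγ hγ1 => ?_⟩
  · obtain ⟨γ, hγ, y, hy, hyx⟩ := hcover x hx hxK
    exact ⟨γ, hγ, y, (hSDom y).2 hy, hyx⟩
  · obtain ⟨γ, hγ, z, hz, hzy⟩ := hunion y ((hSDom y).1 hy)
    rw [← hBcoe]
    exact ⟨γ, hFG hγ, z, hz, hzy⟩
  · rw [Set.disjoint_left]
    intro x hx1 hx2
    set Pi' : Set (Fin n → ℝ) :=
      (PointedCone.hull ℝ (ratVec '' (S : Set (Fin n → ℚ))) : Set (Fin n → ℝ)) with hPi
    have hopen : IsOpen (interior Pi' ∩ interior (act γ.val '' Pi')) :=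
      isOpen_interior.inter isOpen_interior
    have hinvG : γ⁻¹ ∈ G := G.inv_mem hγ
    have hboth : ∀ y ∈ interior Pi' ∩ interior (act γ.val '' Pi'),
        y ∈ Dom ∧ act (γ⁻¹ : GL (Fin n) ℤ).val y ∈ Dom := by
      rintro y ⟨hy1, hy2⟩
      refine ⟨(hSDom y).1 (interior_subset hy1), ?_⟩
      obtain ⟨w, hw, rfl⟩ := interior_subset hy2
      rw [act_val_inv]
      exact (hSDom w).1 hw
    have hqeq : ratVec (lq (γ⁻¹ : GL (Fin n) ℤ).val q) = ratVec q := by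
      refine eq_of_open hopen ⟨x, hx1, hx2⟩ fun y hy => ?_
      obtain ⟨h1, h2⟩ := hboth y hy
      rw [dot_lq]
      refine le_antisymm ?_ (h1.2.1 _ hinvG)
      have h3 := h2.2.1 γ hγ
      rwa [act_inv_val] at h3
    have hqeq' : lq (γ⁻¹ : GL (Fin n) ℤ).val q = q := ratVec_injective hqeq
    have hγinvH : γ⁻¹ ∈ H := (hmemH _).2 ⟨hinvG, hqeq'⟩
    have hγH : γ ∈ H := by
      refine (hmemH _).2 ⟨hγ, ?_⟩
      apply ratVec_injective
      rw [ratVec_lq]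
      conv_lhs => rw [← hqeq]
      rw [ratVec_lq, ← lr_mul, ← Units.val_mul, inv_mul_cancel, Units.val_one]
      rw [lr_apply]
      simp
    have hpeq : ratVec (lq (γ⁻¹ : GL (Fin n) ℤ).val p) = ratVec p := by
      refine eq_of_open hopen ⟨x, hx1, hx2⟩ fun y hy => ?_
      obtain ⟨h1, h2⟩ := hboth y hy
      rw [dot_lq]
      refine le_antisymm ?_ (h1.2.2 _ hγinvH)
      have h3 := h2.2.2 γ hγH
      rwa [act_inv_val] at h3
    have hpeq' := ratVec_injective hpeq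
    have hne : γ⁻¹ ≠ 1 := fun h => hγ1 (inv_eq_one.1 h)
    exact hp _ (Finset.mem_image.2 ⟨γ⁻¹, Finset.mem_erase.2 ⟨hne, hγinvH⟩, rfl⟩) hpeq'

end Pool.Agent.H55.Cone
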