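import Pool.Agent.H55.Cone.Big

/-!
The cone conjecture: a weak covering property suffices, it forces the effective nef classes to be
in the convex hull of the rational nef classes, and a criterion for pairs whose automorphism group
acts cocompactly on the nef and big classes.

`Fin n → ℝ` is the real Neron-Severi space with its lattice of integral vectors, `Nef` the nef
cone, `Eff` the cone spanned by the classes `D` of effective divisors (not closed up), so that
`interior Eff` is the big cone, `G` the image of the automorphism group of the pair.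
-/

namespace Pool.Agent.H55.Cone.WeakCovering

open Pool.Agent.H93Cone Pool.Agent.H55.Cone

theorem result {n : ℕ} (Nef Eff : PointedCone ℝ (Fin n → ℝ)) (D : Set (Fin n → ℤ))
    (hample : (interior (Nef : Set (Fin n → ℝ))).Nonempty)
    (hEff : Eff = PointedCone.hull ℝ (intVec '' D))
    (hampleEff : interior (Nef : Set (Fin n → ℝ)) ⊆ (Eff : Set (Fin n → ℝ)))
    (hsal : ∀ x, x ∈ closure (Eff : Set (Fin n → ℝ)) → -x ∈ closure (Eff : Set (Fin n → ℝ)) →
      x = 0)
    (G : Subgroup (GL (Fin n) ℤ))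
    (hGNef : ∀ g ∈ G, ∀ x ∈ Nef, act g.val x ∈ Nef)
    (hGEff : ∀ g ∈ G, ∀ x ∈ Eff, act g.val x ∈ Eff) :
    ((∃ S : Finset (Fin n → ℚ), ratCone S ⊆ (Nef : Set (Fin n → ℝ)) ∧
        interior (Nef : Set (Fin n → ℝ)) ⊆ translates G (ratCone S)) →
      (Nef : Set (Fin n → ℝ)) ∩ Eff ⊆ ratHull Nef ∧ HasDomain G (ratHull Nef)) ∧
    (HasDomain G ((Nef : Set (Fin n → ℝ)) ∩ Eff) ↔
      ∃ S : Finset (Fin n → ℚ), ratCone S ⊆ (Nef : Set (Fin n → ℝ)) ∩ Eff ∧
        interior (Nef : Set (Fin n → ℝ)) ⊆ translates G (ratCone S)) ∧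
    (HasDomain G ((Nef : Set (Fin n → ℝ)) ∩ Eff) ↔
      HasDomain G (ratHull Nef) ∧ ratHull Nef ⊆ (Eff : Set (Fin n → ℝ))) ∧
    ((∀ x ∈ (Nef : Set (Fin n → ℝ)) ∩ interior (Eff : Set (Fin n → ℝ)),
        ∃ S : Finset (Fin n → ℚ), ratCone S ⊆ (Nef : Set (Fin n → ℝ)) ∧
          ratCone S ∈ nhdsWithin x (Nef : Set (Fin n → ℝ))) →
      ((HasDomain G ((Nef : Set (Fin n → ℝ)) ∩ Eff) ∧
          (Nef : Set (Fin n → ℝ)) ∩ Eff ⊆ interior (Eff : Set (Fin n → ℝ)) ∪ {0}) ↔
        ∃ C : Set (Fin n → ℝ), IsCompact C ∧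
          C ⊆ (Nef : Set (Fin n → ℝ)) ∩ interior (Eff : Set (Fin n → ℝ)) ∧
          (Nef : Set (Fin n → ℝ)) ∩ interior (Eff : Set (Fin n → ℝ)) ⊆
            translates G {x | ∃ t : ℝ, 0 < t ∧ ∃ y ∈ C, x = t • y})) := by
  obtain ⟨h1, h2, h3, _⟩ := final Nef Eff D hample hEff hampleEff hsal G hGNef hGEff
  exact ⟨h1, h2, h3, fun hloc =>
    big Nef Eff D hample hEff hampleEff hsal G hGNef hGEff hloc⟩

end Pool.Agent.H55.Cone.WeakCovering
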